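import Pool.Agent.H23.GLM.Defs

/-!
# Rays avoided by the values of `L`-functions on the critical line
-/

set_option autoImplicit false

open Complex Set

namespace Pool.Agent.H61.Ray

open Pool.Agent.H23.GLM

variable {m : ℕ}

/-- Whenever `π ∈ S` and `X = C_π (1 + |t|)^m` is large enough, there is a direction `θ` (which may
depend on `π` and `t`) such that for all `u ∈ [t - η, t + η]`, with at most `δ log X` exceptions,
the value `L(1/2 + iu, π)` does not lie on the ray `{r e^{iθ} : r > (C_π (1 + |u|)^m)^a}`. -/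
def AvoidsRays (S : Set (LData m)) (a η δ : ℝ) : Prop :=
  ∃ K : ℝ, ∀ π ∈ S, ∀ t : ℝ, K ≤ π.X t → ∃ (θ : ℝ) (Z : Finset ℝ),
    (Z.card : ℝ) ≤ δ * Real.log (π.X t) ∧
    ∀ u ∈ Icc (t - η) (t + η), u ∉ Z → ∀ r : ℝ, π.X u ^ a < r →
      π.L (1 / 2 + u * I) ≠ r * cexp (θ * I)

/-- A lower bound `d` for the distance of the real parts of all archimedean parameters to `1 / 2`.
(Luo, Rudnick and Sarnak: for all standard `L`-functions of degree `m`, `d = 1 / (m^2 + 1)` is
such a bound.) -/
def HasGap (S : Set (LData m)) (d : ℝ) : Prop := ∀ π ∈ S, ∀ j, (π.μ j).re ≤ 1 / 2 - d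

end Pool.Agent.H61.Ray
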