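import Pool.Agent.H61.Ray.Step

/-! The improvement of the exponent and the limit. -/

set_option autoImplicit false

open Complex Set Filter Topology Metric

namespace Pool.Agent.H61.Ray

open Pool.Agent.H23.GLM Pool.Agent.H23.GLH

variable {m : ℕ}

lemma X_le_lq {π : LData m} (h : ¬ Differentiable ℂ π.L) (t : ℝ) : π.X t ≤ lq π t := by
  rcases π.regular with ⟨h1, _⟩ | ⟨_, hN, hμ, _⟩
  · exact absurd h1 h
  · unfold LData.X LData.C lq
    rw [hN, hμ]
    simp only [Pi.zero_apply, norm_zero, add_zero, Finset.prod_const_one, mul_one, Nat.cast_one,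
      one_mul, sub_zero, Finset.prod_const, Finset.card_univ, Fintype.card_fin]
    have h1 : |t| ≤ ‖(1 / 2 + t * I : ℂ)‖ := by
      have := Complex.abs_im_le_norm (1 / 2 + t * I : ℂ)
      simpa using this
    gcongr

/-- The improvement of the exponent. -/
theorem step {S : Set (LData m)} (hM : Molteni S) {d : ℝ} (hd : 0 < d) (hd1 : d ≤ 1)
    (hgap : HasGap S d) {e b η x₁ x₀ τ β : ℝ} (he : 0 ≤ e) (hb0 : 0 ≤ b) (hb1 : b ≤ 1)
    (hη : 0 < η) (hη1 : η ≤ 1) (hx₁ : 0 < x₁) (hx₁4 : x₁ ≤ 1 / 4) (hx₁d : x₁ ≤ d / 2)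
    (hx₁η : x₁ ≤ η) (hx₀ : 0 < x₀) (hx₀' : x₀ < x₁ / 2) (hτ : 0 < τ) (hτ2 : τ < 1 / 2)
    (hτb : τ ≤ b) (hR : ∀ δ > 0, AvoidsRays S e η δ) (hB : Bound S b)
    (hβ : β = max e (b - (b - τ) / (1 / 2 + τ) * (x₁ / 2)) + x₁ ^ 2 / η ^ 2 + τ)
    (hβ2 : β + x₀ ≤ 2) : Bound S (β + x₀) := by
  obtain ⟨A, hA⟩ := exists_adm hM
  obtain ⟨B₁, hB₁1, hB₁⟩ := win_conv hM hb0 hb1 hτ hB
  obtain ⟨B₂, hB₂1, hB₂⟩ := win_crude hM
  obtain ⟨q₁, hq₁1, hq₁⟩ := rat_refined m hd hd1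
  have h2m : (1:ℝ) ≤ 2 ^ m := one_le_pow₀ (by norm_num)
  obtain ⟨C₃, hC₃⟩ := small_cond hM hτ hτ2 (q₁ := 2 ^ m * q₁)
    (one_le_mul_of_one_le_of_one_le h2m hq₁1)
  have h5x : 1 < 5 / x₀ ^ 2 := by
    rw [lt_div_iff₀ (by positivity)]
    nlinarith
  have hlog5 : 0 < Real.log (5 / x₀ ^ 2) := Real.log_pos h5x
  obtain ⟨K, hK⟩ := hR (τ / Real.log (5 / x₀ ^ 2)) (by positivity)
  set u := b - (b - τ) / (1 / 2 + τ) * (x₁ / 2) with hu
  set ξ := x₁ ^ 2 / η ^ 2 with hξ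
  set v := max e u with hv
  have hv0 : 0 ≤ v := he.trans (le_max_left _ _)
  have hξ0 : 0 ≤ ξ := by positivity
  have hβτ : τ ≤ β := by rw [hβ]; linarith
  have hβ0 : 0 ≤ β := by linarith
  set K' := max (max K (2 ^ m * q₁ + 1)) 1 with hK'
  have hK'1 : 1 ≤ K' := le_max_right _ _
  set Ce : ℝ := ((2:ℝ) ^ m) ^ e + 1 with hCe
  have hCe0 : 0 ≤ ((2:ℝ) ^ m) ^ e := by positivity
  set C₄ := (36 * B₁ + 48 * Ce + 12 * B₂) / (η ^ 2 * x₀) + Ce with hC₄
  have hC₄0 : 0 ≤ C₄ := by positivity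
  set C := B₂ * K' + max C₃ 0 + C₄ with hC
  have hC30 : 0 ≤ max C₃ 0 := le_max_right _ _
  have main : ∀ (i : S) (t : ℝ), ‖(i : LData m).F (1 / 2 + x₀ + t * I)‖ ≤
      C * ((i : LData m).C * (1 + |t|) ^ m) ^ β := by
    rintro ⟨π, hπ⟩ t
    show ‖π.F (1 / 2 + x₀ + t * I)‖ ≤ C * π.X t ^ β
    have hg : Gap π d := hgap π hπ
    have hFL := (norm_L_F π (s := 1 / 2 + x₀ + t * I) (by simp; linarith) (by simp; linarith)).1
    refine hFL.trans ?_
    set Q := π.X t with hQ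
    have hQ1 : 1 ≤ Q := π.one_le_X t
    have hQ0 : 0 < Q := by linarith
    have hQβ : 1 ≤ Q ^ β := Real.one_le_rpow hQ1 hβ0
    have ecomm : (1 / 2 + x₀ + t * I : ℂ) = 1 / 2 + t * I + x₀ := by ring
    rcases lt_or_ge Q K' with hQK | hQK
    · have h1 := hB₂ π hπ t x₀ (by simpa using hx₀.le) (by rw [ofReal_re]; linarith) (by simp)
      rw [ecomm]
      calc ‖π.L (1 / 2 + t * I + x₀)‖ ≤ B₂ * Q := h1
        _ ≤ B₂ * K' := by gcongr
        _ ≤ C := by rw [hC]; linarith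
        _ = C * 1 := (mul_one _).symm
        _ ≤ C * Q ^ β := by gcongr
    have hQK1 : K ≤ Q := ((le_max_left _ _).trans (le_max_left _ _)).trans hQK
    have hQK2 : 2 ^ m * q₁ + 1 ≤ Q := ((le_max_right _ _).trans (le_max_left _ _)).trans hQK
    have hB2K : 0 ≤ B₂ * K' := by positivity
    rcases le_or_gt (lq π t) (2 ^ m * q₁) with hl | hl
    · have hdiff : Differentiable ℂ π.L := by
        by_contra hcon
        have := X_le_lq hcon t
        linarith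
      have h1 := hC₃ π hπ hdiff t hl x₀ hx₀.le (by linarith)
      have h2 : π.C ^ τ ≤ Q ^ β := by
        have h3 := π.one_le_C
        calc π.C ^ τ ≤ Q ^ τ := Real.rpow_le_rpow (by linarith) (π.C_le_X t) hτ.le
          _ ≤ Q ^ β := Real.rpow_le_rpow_of_exponent_le hQ1 hβτ
      calc ‖π.L (1 / 2 + x₀ + t * I)‖ ≤ C₃ * π.C ^ τ := h1
        _ ≤ max C₃ 0 * π.C ^ τ := by
            have : 0 ≤ π.C ^ τ := by have := π.one_le_C; positivity
            gcongr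
            exact le_max_left _ _
        _ ≤ max C₃ 0 * Q ^ β := by gcongr
        _ ≤ C * Q ^ β := by
            gcongr
            rw [hC]; linarith
    · obtain ⟨ε₀, hε₀, hfe⟩ := exists_rat π hd hg
      obtain ⟨θ, Z, hZcard, hray⟩ := hK π hπ t hQK1
      have href : ∀ u : ℝ, |u - t| ≤ η → ∀ x : ℝ, 0 ≤ x → x ≤ d / 2 →
          ‖rat π ε₀ (x + u * I)‖ ≤ Real.exp (-x) := by
        intro u hut x hx0 hx1
        refine hq₁ π hg ε₀ hε₀ u ?_ x hx0 hx1
        have h1 := lq_shift π t (u - t)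
        rw [add_sub_cancel] at h1
        have h2 : (1 + |u - t|) ^ m ≤ 2 ^ m := by
          have := abs_nonneg (u - t)
          gcongr
          linarith
        have h3 := one_le_lq π u
        have h4 : 2 ^ m * q₁ ≤ 2 ^ m * lq π u := by
          calc 2 ^ m * q₁ ≤ lq π t := hl.le
            _ ≤ (1 + |u - t|) ^ m * lq π u := h1
            _ ≤ _ := by gcongr
        exact le_of_mul_le_mul_left h4 (by positivity)
      have hcoef : 0 ≤ (b - τ) / (1 / 2 + τ) := div_nonneg (by linarith) (by linarith)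
      have key := ray_point (U := B₁ * Q ^ u) (V := B₂ * Q) hd hg hη hη1 hx₁ hx₁4 hx₁d hx₁η hx₀
        hx₀' he hfe hε₀ href hray (fun z h0 h1 h2 => by
          refine (hB₁ π hπ t z (by linarith) (by linarith) (h2.trans hη1)).trans ?_
          have h3 : b - (b - τ) / (1 / 2 + τ) * z.re ≤ u := by
            have : (b - τ) / (1 / 2 + τ) * (x₁ / 2) ≤ (b - τ) / (1 / 2 + τ) * z.re := by gcongr
            rw [hu]; linarith
          have h4 := Real.rpow_le_rpow_of_exponent_le hQ1 h3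
          gcongr) (fun z h0 h1 h2 => hB₂ π hπ t z h0 (by linarith) (h2.trans hη1))
      rw [ecomm]
      refine key.trans ?_
      rw [← hQ]
      have hQv : 1 ≤ Q ^ v := Real.one_le_rpow hQ1 hv0
      have hBe : (2 ^ m * Q) ^ e + 1 ≤ Ce * Q ^ v := by
        rw [Real.mul_rpow (by positivity) hQ0.le, hCe, add_mul, one_mul]
        have h3 : Q ^ e ≤ Q ^ v := Real.rpow_le_rpow_of_exponent_le hQ1 (le_max_left _ _)
        gcongr
      have hQu : Q ^ u ≤ Q ^ v := Real.rpow_le_rpow_of_exponent_le hQ1 (le_max_right _ _)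
      have hn : (5 / x₀ ^ 2) ^ Z.card ≤ Q ^ τ := by
        have h3 : (Z.card : ℝ) * Real.log (5 / x₀ ^ 2) ≤ τ * Real.log Q := by
          calc (Z.card : ℝ) * Real.log (5 / x₀ ^ 2)
              ≤ (τ / Real.log (5 / x₀ ^ 2) * Real.log Q) * Real.log (5 / x₀ ^ 2) := by gcongr
            _ = _ := by field_simp
        rw [← Real.rpow_natCast, Real.rpow_def_of_pos (by positivity),
          Real.rpow_def_of_pos hQ0]
        apply Real.exp_le_exp.mpr
        linarith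
      have hVQ : B₂ * Q / Q = B₂ := by field_simp
      rw [hVQ]
      have hBe0 : 0 ≤ (2 ^ m * Q) ^ e + 1 := by positivity
      have h6 : 36 * (B₁ * Q ^ u + ((2 ^ m * Q) ^ e + 1)) + 12 * (B₂ + ((2 ^ m * Q) ^ e + 1)) ≤
          (36 * B₁ + 48 * Ce + 12 * B₂) * Q ^ v := by
        have h7 : B₁ * Q ^ u ≤ B₁ * Q ^ v := by gcongr
        have h8 : B₂ ≤ B₂ * Q ^ v := le_mul_of_one_le_right (by linarith) hQv
        linarith
      have h9 : (36 * (B₁ * Q ^ u + ((2 ^ m * Q) ^ e + 1)) +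
          12 * (B₂ + ((2 ^ m * Q) ^ e + 1))) / (η ^ 2 * x₀) ≤
          (36 * B₁ + 48 * Ce + 12 * B₂) / (η ^ 2 * x₀) * Q ^ v := by
        rw [div_mul_eq_mul_div]
        gcongr
      have hβv : Q ^ τ * Q ^ ξ * Q ^ v = Q ^ β := by
        rw [← Real.rpow_add hQ0, ← Real.rpow_add hQ0, hβ]
        congr 1; ring
      have hvβ : Q ^ v ≤ Q ^ β := Real.rpow_le_rpow_of_exponent_le hQ1 (by rw [hβ]; linarith)
      have hD : 0 ≤ (36 * B₁ + 48 * Ce + 12 * B₂) / (η ^ 2 * x₀) := by positivity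
      calc (5 / x₀ ^ 2) ^ Z.card * Q ^ ξ *
            ((36 * (B₁ * Q ^ u + ((2 ^ m * Q) ^ e + 1)) +
              12 * (B₂ + ((2 ^ m * Q) ^ e + 1))) / (η ^ 2 * x₀)) + ((2 ^ m * Q) ^ e + 1)
          ≤ Q ^ τ * Q ^ ξ * ((36 * B₁ + 48 * Ce + 12 * B₂) / (η ^ 2 * x₀) * Q ^ v) +
            Ce * Q ^ v := by gcongr
        _ = (36 * B₁ + 48 * Ce + 12 * B₂) / (η ^ 2 * x₀) * (Q ^ τ * Q ^ ξ * Q ^ v) +
            Ce * Q ^ v := by ring
        _ = (36 * B₁ + 48 * Ce + 12 * B₂) / (η ^ 2 * x₀) * Q ^ β + Ce * Q ^ v := by rw [hβv]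
        _ ≤ (36 * B₁ + 48 * Ce + 12 * B₂) / (η ^ 2 * x₀) * Q ^ β + Ce * Q ^ β := by gcongr
        _ = C₄ * Q ^ β := by rw [hC₄]; ring
        _ ≤ C * Q ^ β := by
            gcongr
            rw [hC]; linarith
  exact bound_of_bd (to_line hA hβ0 hβ2 hx₀ (by linarith) ⟨C, main⟩)

lemma bound_one {S : Set (LData m)} (hM : Molteni S) : Bound S 1 := by
  obtain ⟨B, _, hB⟩ := win_crude hM
  refine ⟨B, fun π hπ t => ?_⟩
  have := hB π hπ t 0 (by simp) (by simp) (by simp)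
  rw [add_zero] at this
  rwa [Real.rpow_one]

lemma bound_mono {S : Set (LData m)} {a b : ℝ} (hab : a ≤ b) (h : Bound S a) : Bound S b := by
  obtain ⟨B, hB⟩ := h
  refine ⟨max B 0, fun π hπ t => (hB π hπ t).trans ?_⟩
  have hX := π.one_le_X t
  have h1 : π.X t ^ a ≤ π.X t ^ b := Real.rpow_le_rpow_of_exponent_le hX hab
  have h2 : 0 ≤ π.X t ^ a := by positivity
  calc B * π.X t ^ a ≤ max B 0 * π.X t ^ a := by gcongr; exact le_max_left _ _
    _ ≤ _ := by gcongr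

lemma avoids_mono {S : Set (LData m)} {a η η' δ : ℝ} (h : η' ≤ η) (hA : AvoidsRays S a η δ) :
    AvoidsRays S a η' δ := by
  obtain ⟨K, hK⟩ := hA
  refine ⟨K, fun π hπ t ht => ?_⟩
  obtain ⟨θ, Z, h1, h2⟩ := hK π hπ t ht
  exact ⟨θ, Z, h1, fun u hu => h2 u ⟨by linarith [hu.1], by linarith [hu.2]⟩⟩

/-- **The ray criterion.** -/
theorem ray_limit {S : Set (LData m)} (hM : Molteni S) {d : ℝ} (hd : 0 < d) (hgap : HasGap S d)
    {a : ℝ} (ha : 0 ≤ a) (hR : ∀ ε > 0, ∃ η > 0, ∀ δ > 0, AvoidsRays S (a + ε) η δ) :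
    ∀ ε > 0, Bound S (a + ε) := by
  set d' := min d 1 with hd'
  have hd'0 : 0 < d' := lt_min hd one_pos
  have hd'1 : d' ≤ 1 := min_le_right _ _
  have hgap' : HasGap S d' := fun π hπ j => (hgap π hπ j).trans (by
    have : d' ≤ d := min_le_left _ _
    linarith)
  set T : Set ℝ := {b | 0 ≤ b ∧ Bound S b} with hT
  have hT1 : (1:ℝ) ∈ T := ⟨zero_le_one, bound_one hM⟩
  have hTbdd : BddBelow T := ⟨0, fun b hb => hb.1⟩
  set c := sInf T with hc
  have hc0 : 0 ≤ c := le_csInf ⟨1, hT1⟩ fun b hb => hb.1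
  have hc1 : c ≤ 1 := csInf_le hTbdd hT1
  rcases le_or_gt c a with hca | hca
  · intro ε hε
    obtain ⟨b, hb, hbc⟩ := exists_lt_of_csInf_lt ⟨1, hT1⟩ (show sInf T < a + ε by linarith)
    exact bound_mono hbc.le hb.2
  exfalso
  set g := c - a with hg
  have hg0 : 0 < g := by linarith
  have hc0' : 0 < c := by linarith
  obtain ⟨η₀, hη₀, hR'⟩ := hR (g / 2) (by positivity)
  set η := min η₀ 1 with hη
  have hη0 : 0 < η := lt_min hη₀ one_pos
  have hη1 : η ≤ 1 := min_le_right _ _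
  set x₁ := min (min (1 / 4) (d' / 2)) (min η (min (η ^ 2 * c / 8) g)) with hx₁def
  have hx₁ : 0 < x₁ := by
    rw [hx₁def]
    refine lt_min (lt_min ?_ ?_) (lt_min hη0 (lt_min ?_ hg0)) <;> positivity
  have hx₁4 : x₁ ≤ 1 / 4 := (min_le_left _ _).trans (min_le_left _ _)
  have hx₁d : x₁ ≤ d' / 2 := (min_le_left _ _).trans (min_le_right _ _)
  have hx₁η : x₁ ≤ η := (min_le_right _ _).trans (min_le_left _ _)
  have hx₁c : x₁ ≤ η ^ 2 * c / 8 :=
    (min_le_right _ _).trans ((min_le_right _ _).trans (min_le_left _ _))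
  have hx₁g : x₁ ≤ g := (min_le_right _ _).trans ((min_le_right _ _).trans (min_le_right _ _))
  set τ := c * x₁ / 16 with hτ
  have hτ0 : 0 < τ := by positivity
  have hcx : c * x₁ ≤ x₁ := by nlinarith
  have hcx' : c * x₁ ≤ c * (1 / 4) := by gcongr
  obtain ⟨b₀, hb₀, hb₀c⟩ := exists_lt_of_csInf_lt ⟨1, hT1⟩ (show sInf T < c + τ by linarith)
  set b := min b₀ 1 with hb
  have hbT : b ∈ T := by
    rw [hb]
    rcases le_total b₀ 1 with h | h
    · rwa [min_eq_left h]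
    · rwa [min_eq_right h]
  have hb1 : b ≤ 1 := min_le_right _ _
  have hbc : b < c + τ := (min_le_left _ _).trans_lt hb₀c
  have hcb : c ≤ b := csInf_le hTbdd hbT
  set β := max (a + g / 2) (b - (b - τ) / (1 / 2 + τ) * (x₁ / 2)) + x₁ ^ 2 / η ^ 2 + τ with hβ
  have h1 : c ≤ (b - τ) / (1 / 2 + τ) := by
    rw [le_div_iff₀ (by linarith)]
    nlinarith
  have h2 : b - (b - τ) / (1 / 2 + τ) * (x₁ / 2) ≤ c - 7 / 16 * (c * x₁) := by
    have : c * (x₁ / 2) ≤ (b - τ) / (1 / 2 + τ) * (x₁ / 2) := by gcongr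
    linarith
  have h3 : a + g / 2 ≤ c - 7 / 16 * (c * x₁) := by linarith
  have h4 : x₁ ^ 2 / η ^ 2 ≤ c * x₁ / 8 := by
    rw [div_le_iff₀ (by positivity)]
    nlinarith
  have h5 := max_le h3 h2
  have hβτ : β + τ < c := by
    rw [hβ]
    have : 0 < c * x₁ := by positivity
    linarith
  have hβ0 : 0 ≤ β := by
    have h6 : 0 ≤ max (a + g / 2) (b - (b - τ) / (1 / 2 + τ) * (x₁ / 2)) :=
      (by linarith : 0 ≤ a + g / 2).trans (le_max_left _ _)
    have h7 : 0 ≤ x₁ ^ 2 / η ^ 2 := by positivity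
    rw [hβ]; linarith
  have key := step hM hd'0 hd'1 hgap' (e := a + g / 2) (b := b) (η := η) (x₁ := x₁) (x₀ := τ)
    (τ := τ) (β := β) (by linarith) hbT.1 hb1 hη0 hη1 hx₁ hx₁4 hx₁d hx₁η hτ0 (by linarith)
    hτ0 (by linarith) (by linarith) (fun δ hδ => avoids_mono (min_le_left _ _) (hR' δ hδ)) hbT.2
    hβ (by linarith)
  have h6 : c ≤ β + τ := csInf_le hTbdd ⟨by linarith, key⟩
  linarith

end Pool.Agent.H61.Ray
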