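import Pool.Agent.H61.Ray.Arch

/-! A bound for the ratio in the functional equation which is sharp at the critical line. -/

set_option autoImplicit false

open Complex Set Filter Topology Metric

namespace Pool.Agent.H61.Ray

open Pool.Agent.H23.GLM Pool.Agent.H23.GLH

variable {m : ℕ}

/-- If the local conductor is large then the ratio is at most `exp (-x)` to the right of the
critical line. -/
theorem rat_refined (m : ℕ) {d : ℝ} (hd : 0 < d) (hd1 : d ≤ 1) : ∃ q₁ : ℝ, 1 ≤ q₁ ∧
    ∀ π : LData m, Gap π d → ∀ ε : ℂ, ‖ε‖ = 1 → ∀ t : ℝ, q₁ ≤ lq π t → ∀ x : ℝ, 0 ≤ x →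
      x ≤ d / 2 → ‖rat π ε (x + t * I)‖ ≤ Real.exp (-x) := by
  have hAd := Ad_ge hd
  set Λ := (m : ℝ) * Real.log (2 * Ad d) with hΛ
  have hlog : 0 ≤ Real.log (2 * Ad d) := Real.log_nonneg (by linarith)
  have hΛ0 : 0 ≤ Λ := by positivity
  have hΛe : Real.exp Λ = (2 * Ad d) ^ m := by
    rw [hΛ, mul_comm, Real.exp_mul, Real.exp_log (by linarith), Real.rpow_natCast]
  set X := d / 2 with hX
  have hX0 : 0 < X := by positivity
  have hX1 : X ≤ 1 := by linarith
  set K := (1 + X ^ 2) / X with hK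
  have hKX : K * X = 1 + X ^ 2 := by rw [hK]; field_simp
  have hK0 : 0 < K := by positivity
  have hKge : X ≤ K := by
    rw [hK, le_div_iff₀ hX0]; nlinarith
  refine ⟨Real.exp (Λ * K + 1), Real.one_le_exp (by positivity), ?_⟩
  intro π hg ε hε t ht x hx0 hx1
  set q := lq π t with hq
  have hq0 : 0 < q := (Real.exp_pos _).trans_le ht
  have hlq : Λ * K + 1 ≤ Real.log q := by
    rw [← Real.log_exp (Λ * K + 1)]
    exact Real.log_le_log (Real.exp_pos _) ht
  set ℓ := Real.log q with hℓ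
  set g : ℂ → ℂ := fun z => rat π ε (z + t * I) * cexp (ℓ * z - Λ * (-z ^ 2 + K * z)) with hgdef
  have hnorm : ∀ z : ℂ, ‖g z‖ = ‖rat π ε (z + t * I)‖ *
      Real.exp (ℓ * z.re - Λ * (z.im ^ 2 - z.re ^ 2 + K * z.re)) := by
    intro z
    rw [hgdef]
    simp only
    rw [norm_mul, norm_exp]
    congr 2
    simp [pow_two]
  set U : Set ℂ := Ioo 0 X ×ℂ Ioo (-1) 1 with hU
  have hcl : closure U = Icc 0 X ×ℂ Icc (-1) 1 := by
    rw [hU, closure_reProdIm, closure_Ioo hX0.ne, closure_Ioo (by norm_num)]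
  have hcrude : ∀ z : ℂ, 0 ≤ z.re → z.re ≤ X → |z.im| ≤ 1 →
      ‖g z‖ ≤ Real.exp (Λ - Λ * (z.im ^ 2 - z.re ^ 2 + K * z.re)) := by
    intro z h0 h1 h2
    rw [hnorm]
    have h3 := norm_rat_le hd hd1 hg hε (z := z + t * I) (by simpa using h0) (by simpa using h1)
    have e1 : (z + t * I).re = z.re := by simp
    have e2 : (z + t * I).im = t + z.im := by simp; ring
    rw [e1, e2] at h3
    have h4 := lq_shift π t z.im
    have h5 : (1 + |z.im|) ^ m ≤ 2 ^ m := by
      have := abs_nonneg z.im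
      gcongr
      linarith
    have h6 := one_le_lq π (t + z.im)
    have h7 : q / 2 ^ m ≤ lq π (t + z.im) := by
      rw [div_le_iff₀ (by positivity)]
      calc q ≤ (1 + |z.im|) ^ m * lq π (t + z.im) := h4
        _ ≤ 2 ^ m * lq π (t + z.im) := by gcongr
        _ = _ := mul_comm _ _
    have h8 : lq π (t + z.im) ^ (-z.re) ≤ 2 ^ m * Real.exp (-(ℓ * z.re)) := by
      calc lq π (t + z.im) ^ (-z.re) ≤ (q / 2 ^ m) ^ (-z.re) :=
            Real.rpow_le_rpow_of_nonpos (by positivity) h7 (by linarith)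
        _ = (2 ^ m) ^ z.re * q ^ (-z.re) := by
            rw [Real.div_rpow hq0.le (by positivity), Real.rpow_neg (by positivity : (0:ℝ) ≤ 2 ^ m),
              div_inv_eq_mul, mul_comm]
        _ ≤ 2 ^ m * q ^ (-z.re) := by
            have h9 : ((2:ℝ) ^ m) ^ z.re ≤ (2 ^ m) ^ (1:ℝ) :=
              Real.rpow_le_rpow_of_exponent_le (one_le_pow₀ (by norm_num)) (by linarith)
            rw [Real.rpow_one] at h9
            gcongr
        _ = _ := by
            rw [Real.rpow_def_of_pos hq0]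
            congr 2
            ring
    have h9 : ‖rat π ε (z + t * I)‖ ≤ Real.exp (Λ - ℓ * z.re) := by
      rw [sub_eq_add_neg, Real.exp_add, hΛe, mul_pow]
      calc ‖rat π ε (z + t * I)‖ ≤ Ad d ^ m * (2 ^ m * Real.exp (-(ℓ * z.re))) := by
            refine h3.trans ?_
            gcongr
        _ = _ := by ring
    calc ‖rat π ε (z + t * I)‖ * Real.exp (ℓ * z.re - Λ * (z.im ^ 2 - z.re ^ 2 + K * z.re))
        ≤ Real.exp (Λ - ℓ * z.re) *
          Real.exp (ℓ * z.re - Λ * (z.im ^ 2 - z.re ^ 2 + K * z.re)) := by gcongr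
      _ = _ := by rw [← Real.exp_add]; congr 1; ring
  have hdiff : DiffContOnCl ℂ g U := by
    refine DifferentiableOn.diffContOnCl fun w hw => ?_
    rw [hcl, mem_reProdIm] at hw
    refine DifferentiableAt.differentiableWithinAt ?_
    rw [hgdef]
    refine DifferentiableAt.mul ?_ (by fun_prop)
    refine DifferentiableAt.comp w (rat_diff hg ε ?_) (by fun_prop)
    have : (w + t * I).re = w.re := by simp
    rw [this, abs_of_nonneg hw.1.1]
    linarith [hw.1.2]
  have hbd : Bornology.IsBounded U :=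
    (isBounded_Ioo (0:ℝ) X).reProdIm (isBounded_Ioo (-1) 1)
  have hxU : (x : ℂ) ∈ closure U := by
    rw [hcl, mem_reProdIm]
    simp
    exact ⟨hx0, hx1⟩
  have key : ‖g x‖ ≤ 1 := by
    refine Complex.norm_le_of_forall_mem_frontier_norm_le hbd hdiff (fun w hw => ?_) hxU
    have hwc : w ∈ closure U := frontier_subset_closure hw
    rw [hcl, mem_reProdIm] at hwc
    have hw2 : w ∉ U := by
      have hopen : IsOpen U := isOpen_Ioo.reProdIm isOpen_Ioo
      rw [hopen.frontier_eq] at hw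
      exact hw.2
    obtain ⟨hw0, hw1⟩ := hwc.1
    have hwi : |w.im| ≤ 1 := abs_le.mpr hwc.2
    by_cases hr0 : w.re = 0
    · rw [hnorm, norm_rat_line hd hg hε (by simp [hr0]), one_mul, Real.exp_le_one_iff, hr0]
      have := sq_nonneg w.im
      have h5 : 0 ≤ Λ * w.im ^ 2 := by positivity
      nlinarith
    · refine (hcrude w hw0 hw1 hwi).trans ?_
      rw [Real.exp_le_one_iff]
      have h3 : 1 ≤ w.im ^ 2 - w.re ^ 2 + K * w.re := by
        by_cases hrX : w.re = X
        · rw [hrX, hKX]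
          nlinarith [sq_nonneg w.im]
        · have h4 : |w.im| = 1 := by
            by_contra hcon
            apply hw2
            rw [hU, mem_reProdIm]
            have h3 := lt_of_le_of_ne hwi hcon
            exact ⟨⟨lt_of_le_of_ne hw0 (Ne.symm hr0), lt_of_le_of_ne hw1 hrX⟩, abs_lt.mp h3⟩
          have h5 : w.im ^ 2 = 1 := by rw [← sq_abs, h4]; norm_num
          rw [h5]
          nlinarith
      nlinarith
  rw [hnorm] at key
  have e1 : ((x : ℂ)).re = x := ofReal_re x
  have e2 : ((x : ℂ)).im = 0 := ofReal_im x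
  rw [e1, e2] at key
  have h1 : ‖rat π ε (x + t * I)‖ ≤
      Real.exp (-(ℓ * x - Λ * (0 ^ 2 - x ^ 2 + K * x))) := by
    rw [Real.exp_neg, ← one_div, le_div_iff₀ (Real.exp_pos _)]
    exact key
  refine h1.trans (Real.exp_le_exp.mpr ?_)
  have h2 : 0 ≤ Λ * x ^ 2 := by positivity
  have h3 : (Λ * K + 1) * x ≤ ℓ * x := by gcongr
  nlinarith

end Pool.Agent.H61.Ray
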