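import Pool.Agent.H23.GLM.GL1

/-! The ratio in the functional equation of `L`-data of degree `m`, near the critical line. -/

set_option autoImplicit false

open Complex Set Filter Topology Metric

namespace Pool.Agent.H61.Ray

open Pool.Agent.H23.GLM Pool.Agent.H23.GLH

variable {m : ℕ}

/-- The inverse ratio of the archimedean factors. -/
noncomputable def Ad (d : ℝ) : ℝ := 2 * Real.pi * AR * (1 + 6 / d)

lemma Ad_ge {d : ℝ} (hd : 0 < d) : 1 ≤ Ad d := by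
  have h1 := AR_ge
  have h2 := Real.pi_gt_three
  have h3 : 0 ≤ 6 / d := by positivity
  unfold Ad
  have h4 : 1 ≤ 2 * Real.pi * AR := by nlinarith
  exact one_le_mul_of_one_le_of_one_le h4 (by linarith)

theorem norm_Gammaℝ_inv_ratio {d x : ℝ} (hd : 0 < d) (hd1 : d ≤ 1) (hx : 0 ≤ x) (hxd : x ≤ d / 2)
    {w : ℂ} (hw : d ≤ w.re) :
    ‖Gammaℝ (w - x)‖ ≤ Ad d * (1 + ‖w‖) ^ (-x) * ‖Gammaℝ (w + x)‖ := by
  have hpi := Real.pi_pos
  have hA := AR_ge
  have hAd := Ad_ge hd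
  have hw0 := norm_nonneg w
  have hre : (w - x).re = w.re - x := by simp
  have hpos : 0 < (w + x).re := by simp; linarith
  have hne1 : Gammaℝ (w + x) ≠ 0 := Gammaℝ_ne_zero_of_re_pos hpos
  have hn1 : 0 < ‖Gammaℝ (w + x)‖ := norm_pos_iff.mpr hne1
  rcases eq_or_lt_of_le hx with h0 | h0
  · rw [← h0]
    simp only [ofReal_zero, sub_zero, add_zero, neg_zero, Real.rpow_zero, mul_one]
    have := norm_nonneg (Gammaℝ w)
    nlinarith
  have hsne : w - x ≠ 0 := by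
    intro h
    have := congrArg Complex.re h
    rw [hre] at this
    simp at this
    linarith
  have hsn : d / 2 ≤ ‖w - x‖ := by
    have := Complex.re_le_norm (w - x)
    rw [hre] at this
    linarith
  have hsp : 0 < ‖w - x‖ := by linarith
  have h1 := norm_Gammaℝ_ratio (x := 1 - x) (z := w + 1) (by linarith) (by linarith)
    (by simp; linarith)
  have e1 : w + 1 + ((1 - x : ℝ) : ℂ) = w - x + 2 := by push_cast; ring
  have e2 : w + 1 - ((1 - x : ℝ) : ℂ) = w + x := by push_cast; ring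
  rw [e1, e2, norm_mul, norm_inv, ← div_eq_mul_inv, div_le_iff₀ hn1, Gammaℝ_add_two hsne] at h1
  have e3 : ‖Gammaℝ (w - x) * (w - x) / 2 / Real.pi‖ =
      ‖Gammaℝ (w - x)‖ * ‖w - x‖ / (2 * Real.pi) := by
    rw [norm_div, norm_div, norm_mul, norm_real, Real.norm_of_nonneg hpi.le]
    have : ‖(2:ℂ)‖ = 2 := by simp
    rw [this, div_div]
  rw [e3, div_le_iff₀ (by positivity)] at h1
  have h2 : 1 + ‖w + 1‖ ≤ ‖w - x‖ * (1 + 6 / d) := by
    have h3 : ‖w + 1‖ ≤ ‖w - x‖ + 2 := by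
      have e : w + 1 = (w - x) + ((x + 1 : ℝ) : ℂ) := by push_cast; ring
      rw [e]
      refine (norm_add_le _ _).trans ?_
      rw [norm_real, Real.norm_of_nonneg (by linarith)]
      linarith
    have h4 : 3 ≤ ‖w - x‖ * (6 / d) := by
      calc (3:ℝ) = d / 2 * (6 / d) := by field_simp; norm_num
        _ ≤ _ := by gcongr
    linarith
  have h3 : (1 + ‖w‖) ≤ 1 + ‖w + 1‖ := by
    have : ‖w‖ ≤ ‖w + 1‖ := by
      rw [← sq_le_sq₀ (norm_nonneg _) (norm_nonneg _), ← Complex.normSq_eq_norm_sq,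
        ← Complex.normSq_eq_norm_sq, Complex.normSq_apply, Complex.normSq_apply]
      simp
      nlinarith
    linarith
  have h4 : (1 + ‖w + 1‖) ^ (1 - x) ≤ ‖w - x‖ * (1 + 6 / d) * (1 + ‖w‖) ^ (-x) := by
    have e4 : (1 + ‖w + 1‖) ^ (1 - x) = (1 + ‖w + 1‖) * (1 + ‖w + 1‖) ^ (-x) := by
      have : 0 < 1 + ‖w + 1‖ := by positivity
      rw [sub_eq_add_neg, Real.rpow_add this, Real.rpow_one]
    rw [e4]
    have h5 : (1 + ‖w + 1‖) ^ (-x) ≤ (1 + ‖w‖) ^ (-x) :=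
      Real.rpow_le_rpow_of_nonpos (by linarith) h3 (by linarith)
    gcongr
  have h6 : ‖Gammaℝ (w - x)‖ * ‖w - x‖ ≤
      (Ad d * (1 + ‖w‖) ^ (-x) * ‖Gammaℝ (w + x)‖) * ‖w - x‖ := by
    calc ‖Gammaℝ (w - x)‖ * ‖w - x‖
        ≤ AR * (1 + ‖w + 1‖) ^ (1 - x) * ‖Gammaℝ (w + x)‖ * (2 * Real.pi) := h1
      _ ≤ AR * (‖w - x‖ * (1 + 6 / d) * (1 + ‖w‖) ^ (-x)) * ‖Gammaℝ (w + x)‖ *
          (2 * Real.pi) := by gcongr
      _ = _ := by unfold Ad; ring
  exact le_of_mul_le_mul_right h6 hsp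

/-- The local conductor at height `t`. -/
noncomputable def lq (π : LData m) (t : ℝ) : ℝ :=
  π.N * ∏ j, (1 + ‖(1 / 2 + t * I - π.μ j : ℂ)‖)

lemma one_le_prod_fac (π : LData m) (t : ℝ) :
    1 ≤ ∏ j, (1 + ‖(1 / 2 + t * I - π.μ j : ℂ)‖) := by
  calc (1:ℝ) = ∏ _j : Fin m, (1:ℝ) := by simp
    _ ≤ _ := Finset.prod_le_prod (fun _ _ => zero_le_one) fun j _ => by
        linarith [norm_nonneg (1 / 2 + t * I - π.μ j : ℂ)]

lemma one_le_lq (π : LData m) (t : ℝ) : 1 ≤ lq π t :=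
  one_le_mul_of_one_le_of_one_le π.one_le_N (one_le_prod_fac π t)

lemma lq_shift (π : LData m) (t v : ℝ) : lq π t ≤ (1 + |v|) ^ m * lq π (t + v) := by
  unfold lq
  have h1 : ∏ j, (1 + ‖(1 / 2 + t * I - π.μ j : ℂ)‖) ≤
      ∏ j, ((1 + |v|) * (1 + ‖(1 / 2 + ((t + v : ℝ) : ℂ) * I - π.μ j : ℂ)‖)) := by
    refine Finset.prod_le_prod (fun j _ => by positivity) fun j _ => ?_
    have e : (1 / 2 + t * I - π.μ j : ℂ) =
        (1 / 2 + ((t + v : ℝ) : ℂ) * I - π.μ j) + ((-v : ℝ) : ℂ) * I := by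
      push_cast; ring
    have h2 : ‖(1 / 2 + t * I - π.μ j : ℂ)‖ ≤
        ‖(1 / 2 + ((t + v : ℝ) : ℂ) * I - π.μ j : ℂ)‖ + |v| := by
      rw [e]
      refine (norm_add_le _ _).trans ?_
      rw [norm_mul, norm_I, mul_one, norm_real, Real.norm_eq_abs, abs_neg]
    have h3 := norm_nonneg (1 / 2 + ((t + v : ℝ) : ℂ) * I - π.μ j : ℂ)
    have h4 := abs_nonneg v
    nlinarith
  rw [Finset.prod_mul_distrib, Finset.prod_const, Finset.card_univ, Fintype.card_fin] at h1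
  have hN := π.one_le_N
  calc (π.N : ℝ) * ∏ j, (1 + ‖(1 / 2 + t * I - π.μ j : ℂ)‖) ≤
        π.N * ((1 + |v|) ^ m * ∏ j, (1 + ‖(1 / 2 + ((t + v : ℝ) : ℂ) * I - π.μ j : ℂ)‖)) := by
        gcongr
    _ = _ := by ring

/-- All archimedean parameters have real part at most `1 / 2 - d`. -/
def Gap (π : LData m) (d : ℝ) : Prop := ∀ j, (π.μ j).re ≤ 1 / 2 - d

/-- The ratio in the functional equation, as a function of `z = s - 1 / 2`. -/
noncomputable def rat (π : LData m) (ε : ℂ) (z : ℂ) : ℂ :=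
  ε * (π.N : ℂ) ^ (-z) * ∏ j, (Gammaℝ (1 / 2 - z - (starRingEnd ℂ) (π.μ j)) *
    (Gammaℝ (1 / 2 + z - π.μ j))⁻¹)

lemma differentiableAt_Gammaℝ {s : ℂ} (hs : 0 < s.re) : DifferentiableAt ℂ Gammaℝ s := by
  have h := (differentiable_Gammaℝ_inv s).inv (inv_ne_zero (Gammaℝ_ne_zero_of_re_pos hs))
  have h' : (fun s : ℂ => (Gammaℝ s)⁻¹)⁻¹ = Gammaℝ := by
    funext z
    simp
  rwa [h'] at h

lemma rat_diff {π : LData m} {d : ℝ} (hg : Gap π d) (ε : ℂ) {z : ℂ} (hz : |z.re| < d) :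
    DifferentiableAt ℂ (rat π ε) z := by
  have hz' := abs_lt.mp hz
  have hN : (π.N : ℂ) ≠ 0 := by exact_mod_cast π.N_ne
  unfold rat
  refine DifferentiableAt.mul ?_ ?_
  · refine (differentiableAt_const _).mul ?_
    exact (differentiableAt_id.neg).const_cpow (Or.inl hN)
  · refine DifferentiableAt.fun_finsetProd fun j _ => ?_
    have h1 := hg j
    refine DifferentiableAt.mul ?_ ?_
    · refine DifferentiableAt.comp z (differentiableAt_Gammaℝ ?_) (by fun_prop)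
      simp
      linarith
    · exact (differentiable_Gammaℝ_inv _).comp z (by fun_prop)

lemma conj_arg (μ z : ℂ) : (1 / 2 - z - (starRingEnd ℂ) μ : ℂ) =
    (starRingEnd ℂ) (1 / 2 - (starRingEnd ℂ) z - μ) := by
  rw [map_sub, map_sub, Complex.conj_conj, map_div₀, map_one, map_ofNat]

/-- The functional equation near the critical line. -/
theorem exists_rat (π : LData m) {d : ℝ} (hd : 0 < d) (hg : Gap π d) : ∃ ε : ℂ, ‖ε‖ = 1 ∧
    ∀ z : ℂ, |z.re| < d → π.L (1 / 2 + z) =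
      rat π ε z * (starRingEnd ℂ) (π.L (1 / 2 - (starRingEnd ℂ) z)) := by
  obtain ⟨ε, hε, hfe⟩ := π.functional
  refine ⟨ε, hε, fun z hz => ?_⟩
  have hz' := abs_lt.mp hz
  have e1 : 1 - (starRingEnd ℂ) (1 / 2 + z) = 1 / 2 - (starRingEnd ℂ) z := by
    rw [map_add, map_div₀, map_one, map_ofNat]; ring
  have hne1 : archFactor π.μ (1 / 2 + z) ≠ 0 := by
    rw [archFactor_ne_zero_iff]
    intro j
    have := hg j
    apply Gammaℝ_ne_zero_of_re_pos
    simp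
    linarith
  have hne2 : archFactor π.μ (1 / 2 - (starRingEnd ℂ) z) ≠ 0 := by
    rw [archFactor_ne_zero_iff]
    intro j
    have := hg j
    apply Gammaℝ_ne_zero_of_re_pos
    simp
    linarith
  have h := hfe (1 / 2 + z) hne1 (by rw [e1]; exact hne2)
  rw [e1, map_mul] at h
  have e2 : (1 / 2 - (1 / 2 + z) : ℂ) = -z := by ring
  rw [e2] at h
  have e3 : rat π ε z = ε * (π.N : ℂ) ^ (-z) *
      ((starRingEnd ℂ) (archFactor π.μ (1 / 2 - (starRingEnd ℂ) z)) *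
        (archFactor π.μ (1 / 2 + z))⁻¹) := by
    unfold rat archFactor
    rw [Finset.prod_mul_distrib, Finset.prod_inv_distrib, map_prod]
    have e4 : ∏ j, Gammaℝ (1 / 2 - z - (starRingEnd ℂ) (π.μ j)) =
        ∏ j, (starRingEnd ℂ) (Gammaℝ (1 / 2 - (starRingEnd ℂ) z - π.μ j)) :=
      Finset.prod_congr rfl fun j _ => by rw [conj_arg, Gammaℝ_conj]
    rw [e4]
  rw [e3]
  generalize (π.N : ℂ) ^ (-z) = P at h ⊢
  generalize archFactor π.μ (1 / 2 + z) = A at h hne1 ⊢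
  generalize (starRingEnd ℂ) (archFactor π.μ (1 / 2 - (starRingEnd ℂ) z)) = A' at h ⊢
  generalize (starRingEnd ℂ) (π.L (1 / 2 - (starRingEnd ℂ) z)) = l' at h ⊢
  generalize π.L (1 / 2 + z) = l at h ⊢
  field_simp
  linear_combination h

lemma norm_rat_le {π : LData m} {d : ℝ} (hd : 0 < d) (hd1 : d ≤ 1) (hg : Gap π d) {ε : ℂ}
    (hε : ‖ε‖ = 1) {z : ℂ} (h0 : 0 ≤ z.re) (h1 : z.re ≤ d / 2) :
    ‖rat π ε z‖ ≤ Ad d ^ m * lq π z.im ^ (-z.re) := by
  have hN : 0 < π.N := Nat.pos_of_ne_zero π.N_ne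
  have hAd := Ad_ge hd
  unfold rat
  rw [norm_mul, norm_mul, hε, one_mul, norm_prod, Complex.norm_natCast_cpow_of_pos hN, neg_re]
  have h2 : ∏ j, ‖Gammaℝ (1 / 2 - z - (starRingEnd ℂ) (π.μ j)) *
      (Gammaℝ (1 / 2 + z - π.μ j))⁻¹‖ ≤
      ∏ j, (Ad d * (1 + ‖(1 / 2 + z.im * I - π.μ j : ℂ)‖) ^ (-z.re)) := by
    refine Finset.prod_le_prod (fun j _ => norm_nonneg _) fun j _ => ?_
    have h3 := hg j
    set w : ℂ := 1 / 2 + z.im * I - π.μ j with hw
    have hwre : d ≤ w.re := by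
      rw [hw]; simp; linarith
    have hz : z = z.re + z.im * I := (re_add_im z).symm
    have e1 : (1 / 2 - (starRingEnd ℂ) z - π.μ j : ℂ) = w - z.re := by
      rw [hw]
      apply Complex.ext
      · simp; ring
      · simp
    have e2 : (1 / 2 + z - π.μ j : ℂ) = w + z.re := by
      rw [hw]
      nth_rewrite 1 [hz]
      ring
    rw [norm_mul, conj_arg, Gammaℝ_conj, RCLike.norm_conj, norm_inv, e1, e2, ← div_eq_mul_inv,
      div_le_iff₀]
    · exact norm_Gammaℝ_inv_ratio hd hd1 h0 h1 hwre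
    · apply norm_pos_iff.mpr
      apply Gammaℝ_ne_zero_of_re_pos
      simp
      linarith
  rw [Finset.prod_mul_distrib, Finset.prod_const, Finset.card_univ, Fintype.card_fin,
    Real.finsetProd_rpow _ _ fun j _ => by positivity] at h2
  unfold lq
  rw [Real.mul_rpow (by positivity) (by positivity)]
  calc (π.N : ℝ) ^ (-z.re) * _ ≤ (π.N : ℝ) ^ (-z.re) *
        (Ad d ^ m * (∏ j, (1 + ‖(1 / 2 + z.im * I - π.μ j : ℂ)‖)) ^ (-z.re)) := by gcongr
    _ = _ := by ring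

lemma norm_rat_line {π : LData m} {d : ℝ} (hd : 0 < d) (hg : Gap π d) {ε : ℂ} (hε : ‖ε‖ = 1)
    {z : ℂ} (h0 : z.re = 0) : ‖rat π ε z‖ = 1 := by
  have hN : 0 < π.N := Nat.pos_of_ne_zero π.N_ne
  unfold rat
  rw [norm_mul, norm_mul, hε, one_mul, norm_prod, Complex.norm_natCast_cpow_of_pos hN, neg_re, h0,
    neg_zero, Real.rpow_zero, one_mul]
  refine Finset.prod_eq_one fun j _ => ?_
  have h3 := hg j
  have e1 : (1 / 2 - (starRingEnd ℂ) z - π.μ j : ℂ) = 1 / 2 + z - π.μ j := by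
    apply Complex.ext
    · simp [h0]
    · simp
  rw [norm_mul, conj_arg, Gammaℝ_conj, RCLike.norm_conj, norm_inv, e1]
  apply mul_inv_cancel₀
  rw [Ne, norm_eq_zero]
  apply Gammaℝ_ne_zero_of_re_pos
  simp [h0]
  linarith

end Pool.Agent.H61.Ray
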