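import Pool.Agent.H23.GLM.Instance
import Pool.Agent.H61.Ray.Arch

/-! Phragmen-Lindelof in a strip with polynomial growth, small local conductors, and the return to
the critical line. -/

set_option autoImplicit false

open Complex Set Filter Topology Metric

namespace Pool.Agent.H61.Ray

open Pool.Agent.H23.GLM Pool.Agent.H23.GLH

lemma poly_exp (p : ℕ) (v w : ℝ) :
    (1 + |v|) ^ p * Real.exp (w ^ 2 - v ^ 2) ≤ p.factorial * Real.exp (w ^ 2 + 2) := by
  have h1 := pow_le_factorial_mul_exp p (y := 1 + |v|) (by positivity)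
  calc (1 + |v|) ^ p * Real.exp (w ^ 2 - v ^ 2)
      ≤ (p.factorial * Real.exp (1 + |v|)) * Real.exp (w ^ 2 - v ^ 2) := by gcongr
    _ = p.factorial * Real.exp (1 + |v| + (w ^ 2 - v ^ 2)) := by rw [mul_assoc, ← Real.exp_add]
    _ ≤ _ := by
        refine mul_le_mul_of_nonneg_left (Real.exp_le_exp.mpr ?_) (by positivity)
        rw [← sq_abs v]
        nlinarith [sq_nonneg (|v| - 1 / 2)]

/-- Phragmen-Lindelof in the strip `|Re z| ≤ w`. -/
theorem strip_max {f : ℂ → ℂ} {w M M' : ℝ} {p p' : ℕ} (hw : 0 < w)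
    (hf : ∀ z : ℂ, |z.re| ≤ w → DifferentiableAt ℂ f z) (hM : 0 ≤ M) (hM' : 0 ≤ M')
    (hgrow : ∀ z : ℂ, |z.re| ≤ w → ‖f z‖ ≤ M' * (1 + |z.im|) ^ p')
    (hedge : ∀ z : ℂ, |z.re| = w → ‖f z‖ ≤ M * (1 + |z.im|) ^ p) {x : ℝ} (hx : |x| ≤ w) :
    ‖f x‖ ≤ M * (p.factorial * Real.exp (w ^ 2 + 2)) := by
  set g : ℂ → ℂ := fun z => f z * cexp (z ^ 2) with hg
  have hnorm : ∀ z : ℂ, ‖g z‖ = ‖f z‖ * Real.exp (z.re ^ 2 - z.im ^ 2) := by
    intro z
    rw [hg]
    simp only
    rw [norm_mul, norm_exp]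
    congr 2
    simp [pow_two]
  have hcl : closure (re ⁻¹' Ioo (-w) w) ⊆ re ⁻¹' Icc (-w) w :=
    closure_minimal (preimage_mono Ioo_subset_Icc_self)
      (isClosed_Icc.preimage Complex.continuous_re)
  have hd : DiffContOnCl ℂ g (re ⁻¹' Ioo (-w) w) := by
    refine DifferentiableOn.diffContOnCl fun z hz => ?_
    have h1 : |z.re| ≤ w := abs_le.mpr (hcl hz)
    exact ((hf z h1).mul (by fun_prop)).differentiableWithinAt
  have hb : ∀ z : ℂ, |z.re| ≤ w → ∀ (M : ℝ) (p : ℕ), 0 ≤ M → ‖f z‖ ≤ M * (1 + |z.im|) ^ p →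
      ‖g z‖ ≤ M * (p.factorial * Real.exp (w ^ 2 + 2)) := by
    intro z hz M p hM h
    rw [hnorm]
    have h1 : z.re ^ 2 ≤ w ^ 2 := by rw [← sq_abs z.re]; gcongr
    calc ‖f z‖ * Real.exp (z.re ^ 2 - z.im ^ 2)
        ≤ (M * (1 + |z.im|) ^ p) * Real.exp (w ^ 2 - z.im ^ 2) := by gcongr
      _ = M * ((1 + |z.im|) ^ p * Real.exp (w ^ 2 - z.im ^ 2)) := by ring
      _ ≤ _ := by
          have := poly_exp p z.im w
          gcongr
  have key : ‖g x‖ ≤ M * (p.factorial * Real.exp (w ^ 2 + 2)) := by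
    have hx' := abs_le.mp hx
    refine PhragmenLindelof.vertical_strip hd ⟨0, ?_, 0, ?_⟩ (fun z hz => ?_) (fun z hz => ?_)
      (by simpa using hx'.1) (by simpa using hx'.2)
    · have := Real.pi_pos
      have : 0 < w - -w := by linarith
      positivity
    · refine Asymptotics.IsBigO.of_bound (M' * (p'.factorial * Real.exp (w ^ 2 + 2))) ?_
      rw [Filter.eventually_inf_principal]
      refine Filter.Eventually.of_forall ?_
      intro z hz
      have hz' : |z.re| ≤ w := abs_le.mpr ⟨hz.1.le, hz.2.le⟩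
      simpa using hb z hz' M' p' hM' (hgrow z hz')
    · have : |z.re| = w := by rw [hz, abs_neg, abs_of_pos hw]
      exact hb z this.le M p hM (hedge z this)
    · have : |z.re| = w := by rw [hz, abs_of_pos hw]
      exact hb z this.le M p hM (hedge z this)
  refine le_trans ?_ key
  rw [hnorm]
  have e1 : ((x : ℂ)).re = x := ofReal_re x
  have e2 : ((x : ℂ)).im = 0 := ofReal_im x
  rw [e1, e2]
  have : 1 ≤ Real.exp (x ^ 2 - 0 ^ 2) := by
    apply Real.one_le_exp
    have := sq_nonneg x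
    linarith
  exact le_mul_of_one_le_right (norm_nonneg _) this

variable {m : ℕ}

/-- The functional equation as an inequality, with the local conductor. -/
theorem refl_local (π : LData m) (hL : Continuous π.L) {x : ℝ} (hx : 0 < x) (hx1 : x < 1)
    (t : ℝ) : ‖π.L (1 / 2 - x + t * I)‖ ≤
      AR ^ m * lq π t ^ x * ‖π.L (1 / 2 + x + t * I)‖ := by
  obtain ⟨ε, hε, hfe⟩ := π.functional' hL
  have hA := AR_ge
  set s : ℂ := 1 / 2 - x + t * I with hs
  have hs' : 1 - (starRingEnd ℂ) s = 1 / 2 + x + t * I := by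
    rw [hs, map_add, map_sub, map_mul, conj_I, conj_ofReal, conj_ofReal, map_div₀, map_one,
      map_ofNat]
    ring
  have h := hfe s
  rw [hs'] at h
  set z : Fin m → ℂ := fun j => 1 / 2 + t * I - π.μ j with hz
  have hzre : ∀ j, 0 ≤ (z j).re := by
    intro j
    have := π.re_μ_lt j
    simp [hz]
    linarith
  have e1 : ∀ j, 1 / 2 + x + t * I - π.μ j = z j + x := fun j => by rw [hz]; ring
  have e2 : ∀ j, s - π.μ j = z j - x := fun j => by rw [hz, hs]; ring
  have hne : archFactor π.μ (1 / 2 + x + t * I) ≠ 0 := by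
    rw [archFactor_ne_zero_iff]
    intro j
    rw [e1]
    refine Gammaℝ_ne_zero_of_re_pos ?_
    have := hzre j
    simp
    linarith
  have hnorm := congrArg norm h
  rw [norm_mul, RCLike.norm_conj, norm_mul, norm_mul, norm_mul, RCLike.norm_conj, hε, one_mul,
    norm_inv] at hnorm
  have hpos : 0 < ‖archFactor π.μ (1 / 2 + x + t * I)‖ := norm_pos_iff.mpr hne
  have hN : ‖(π.N : ℂ) ^ (1 / 2 - s)‖ = (π.N : ℝ) ^ x := by
    rw [Complex.norm_natCast_cpow_of_pos (Nat.pos_of_ne_zero π.N_ne)]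
    congr 1
    simp [hs]
  rw [hN] at hnorm
  have h2 : ‖π.L s‖ = (π.N : ℝ) ^ x * ‖π.L (1 / 2 + x + t * I)‖ *
      (‖archFactor π.μ (1 / 2 + x + t * I)‖ * ‖(archFactor π.μ s)⁻¹‖) := by
    have h5 : ‖π.L s‖ = (‖π.L s‖ * ‖archFactor π.μ (1 / 2 + x + t * I)‖⁻¹) *
        ‖archFactor π.μ (1 / 2 + x + t * I)‖ := by
      rw [inv_mul_cancel_right₀ hpos.ne']
    rw [h5, hnorm]
    ring
  have h3 : ‖archFactor π.μ (1 / 2 + x + t * I)‖ * ‖(archFactor π.μ s)⁻¹‖ ≤
      ∏ j, (AR * (1 + ‖z j‖) ^ x) := by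
    rw [archFactor, archFactor, ← Finset.prod_inv_distrib, norm_prod, norm_prod,
      ← Finset.prod_mul_distrib]
    refine Finset.prod_le_prod (fun j _ => by positivity) fun j _ => ?_
    rw [← norm_mul, e1, e2]
    exact norm_Gammaℝ_ratio hx hx1 (hzre j)
  rw [Finset.prod_mul_distrib, Finset.prod_const, Finset.card_univ, Fintype.card_fin,
    Real.finsetProd_rpow _ _ fun j _ => by positivity] at h3
  unfold lq
  rw [h2, Real.mul_rpow (by positivity) (Finset.prod_nonneg fun j _ => by positivity)]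
  have hL0 := norm_nonneg (π.L (1 / 2 + x + t * I))
  calc (π.N : ℝ) ^ x * ‖π.L (1 / 2 + x + t * I)‖ *
        (‖archFactor π.μ (1 / 2 + x + t * I)‖ * ‖(archFactor π.μ s)⁻¹‖)
      ≤ (π.N : ℝ) ^ x * ‖π.L (1 / 2 + x + t * I)‖ *
        (AR ^ m * (∏ j, (1 + ‖z j‖)) ^ x) := by gcongr
    _ = _ := by ring

/-- The return to the critical line. -/
theorem to_line {ι : Type*} {F : ι → ℂ → ℂ} {c : ι → ℝ} {n : ℕ} {A : ℝ} (h : Adm F c n A 1)
    {β x₀ : ℝ} (hβ : 0 ≤ β) (hβ1 : β + x₀ ≤ 2) (hx₀ : 0 < x₀) (hx₀' : x₀ ≤ 1 / 4)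
    (hb : ∃ C : ℝ, ∀ (i : ι) (t : ℝ),
      ‖F i (1 / 2 + x₀ + t * I)‖ ≤ C * (c i * (1 + |t|) ^ n) ^ β) :
    Bd F c n (β + x₀) := by
  obtain ⟨C₀, hC₀⟩ := hb
  set C := max C₀ 1 with hCdef
  have hC1 : 1 ≤ C := le_max_right _ _
  have hC : ∀ (i : ι) (t : ℝ), ‖F i (1 / 2 + x₀ + t * I)‖ ≤ C * (c i * (1 + |t|) ^ n) ^ β := by
    intro i t
    refine (hC₀ i t).trans ?_
    have h1 := q_ge_one h i t
    have h2 : 0 ≤ (c i * (1 + |t|) ^ n) ^ β := by positivity
    gcongr
    exact le_max_left _ _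
  have hA := h.one_le_A
  refine ⟨A * C * ((n * 2).factorial * Real.exp (x₀ ^ 2 + 2)), fun i t => ?_⟩
  have hc := h.one_le_c i
  set Q := c i * (1 + |t|) ^ n with hQ
  have hQ1 : 1 ≤ Q := q_ge_one h i t
  have hcomp : ∀ v : ℝ, c i * (1 + |t + v|) ^ n ≤ Q * (1 + |v|) ^ n := fun v =>
    qcomp (by linarith) n t v
  set f : ℂ → ℂ := fun z => F i (1 / 2 + t * I + z) with hf
  have hU : IsOpen {s : ℂ | 0 < s.re} := isOpen_lt continuous_const Complex.continuous_re
  have h1 := strip_max (f := f) (w := x₀) (M := A * C * Q ^ (β + x₀)) (M' := A * Q)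
    (p := n * 2) (p' := n) hx₀ (fun z hz => by
      have hz' := abs_le.mp hz
      have h1 : 0 < (1 / 2 + t * I + z : ℂ).re := by simp; linarith [hz'.1]
      have h2 : DifferentiableAt ℂ (F i) (1 / 2 + t * I + z) :=
        (h.diff i _ h1).differentiableAt (hU.mem_nhds h1)
      exact h2.comp z ((differentiableAt_const _).add differentiableAt_id)) (by positivity)
    (by positivity) (fun z hz => by
      have hz' := abs_le.mp hz
      have h1 := h.grow i (1 / 2 + t * I + z) (by simp; linarith [hz'.1])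
      rw [pow_one] at h1
      refine h1.trans ?_
      have e : (1 / 2 + t * I + z : ℂ).im = t + z.im := by simp
      rw [e, mul_assoc]
      have := hcomp z.im
      gcongr) (fun z hz => by
      have hv1 : 1 ≤ 1 + |z.im| := by have := abs_nonneg z.im; linarith
      have hcz := hcomp z.im
      have hq1 := q_ge_one h i (t + z.im)
      have right : ‖F i (1 / 2 + x₀ + ((t + z.im : ℝ) : ℂ) * I)‖ ≤
          C * (Q * (1 + |z.im|) ^ n) ^ β := by
        refine (hC i (t + z.im)).trans ?_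
        gcongr
      have hQv : 1 ≤ Q * (1 + |z.im|) ^ n :=
        one_le_mul_of_one_le_of_one_le hQ1 (one_le_pow₀ hv1)
      have hfin : A * C * (Q * (1 + |z.im|) ^ n) ^ (β + x₀) ≤
          A * C * Q ^ (β + x₀) * (1 + |z.im|) ^ (n * 2) := by
        rw [mul_assoc (A * C)]
        have := qpow_le (n := n) (k := 2) hQ1 (a := β + x₀) (by linarith)
          (by push_cast; linarith) hv1
        gcongr
      rcases abs_choice z.re with h5 | h5
      · have e : (1 / 2 + t * I + z : ℂ) = 1 / 2 + x₀ + ((t + z.im : ℝ) : ℂ) * I := by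
          rw [h5] at hz
          apply Complex.ext
          · simp [hz]
          · simp
        simp only [hf]
        rw [e]
        refine le_trans ?_ hfin
        refine right.trans ?_
        have h6 : (Q * (1 + |z.im|) ^ n) ^ β ≤ (Q * (1 + |z.im|) ^ n) ^ (β + x₀) :=
          Real.rpow_le_rpow_of_exponent_le hQv (by linarith)
        calc C * (Q * (1 + |z.im|) ^ n) ^ β = 1 * C * (Q * (1 + |z.im|) ^ n) ^ β := by ring
          _ ≤ _ := by gcongr
      · have e : (1 / 2 + t * I + z : ℂ) = 1 / 2 - x₀ + ((t + z.im : ℝ) : ℂ) * I := by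
          rw [h5] at hz
          have : z.re = -x₀ := by linarith
          apply Complex.ext
          · simp [this]; ring
          · simp
        simp only [hf]
        rw [e]
        refine le_trans ?_ hfin
        refine (h.refl i x₀ (t + z.im) hx₀ hx₀').trans ?_
        have h6 : (c i * (1 + |t + z.im|) ^ n) ^ x₀ ≤ (Q * (1 + |z.im|) ^ n) ^ x₀ :=
          Real.rpow_le_rpow (by linarith) hcz hx₀.le
        calc A * (c i * (1 + |t + z.im|) ^ n) ^ x₀ *
              ‖F i (1 / 2 + x₀ + ((t + z.im : ℝ) : ℂ) * I)‖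
            ≤ A * (Q * (1 + |z.im|) ^ n) ^ x₀ * (C * (Q * (1 + |z.im|) ^ n) ^ β) := by gcongr
          _ = A * C * ((Q * (1 + |z.im|) ^ n) ^ β * (Q * (1 + |z.im|) ^ n) ^ x₀) := by ring
          _ = _ := by rw [← Real.rpow_add (by linarith)]) (x := 0) (by simpa using hx₀.le)
  simp only [hf, ofReal_zero, add_zero] at h1
  refine h1.trans (le_of_eq ?_)
  ring

/-- The convexity bound with the local conductor, where this is bounded. -/
theorem small_cond {S : Set (LData m)} (hM : Molteni S) {δ q₁ : ℝ} (hδ : 0 < δ) (hδ1 : δ < 1 / 2)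
    (hq₁ : 1 ≤ q₁) : ∃ C : ℝ, ∀ π ∈ S, Differentiable ℂ π.L → ∀ t : ℝ, lq π t ≤ q₁ →
      ∀ x : ℝ, 0 ≤ x → x ≤ 1 / 2 → ‖π.L (1 / 2 + x + t * I)‖ ≤ C * π.C ^ δ := by
  obtain ⟨B₁, hB₁⟩ := hM δ hδ
  obtain ⟨B₂, hB₂⟩ := hM (1 / 4) (by norm_num)
  set B := max (max B₁ B₂) 1 with hBdef
  have hB1 : 1 ≤ B := le_max_right _ _
  have hA := AR_ge
  have hA1 : 1 ≤ AR ^ m := one_le_pow₀ (by linarith)
  set w := 1 / 2 + δ with hw
  refine ⟨AR ^ m * q₁ * B * (m.factorial * Real.exp (w ^ 2 + 2)), ?_⟩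
  intro π hπ hd t ht x hx0 hx1
  have hC := π.one_le_C
  have hCδ : 1 ≤ π.C ^ δ := Real.one_le_rpow hC hδ.le
  have hb1 : ∀ s : ℂ, 1 + δ ≤ s.re → ‖π.L s‖ ≤ B * π.C ^ δ := by
    intro s hs
    refine (hB₁ π hπ s hs).trans ?_
    gcongr
    exact (le_max_left _ _).trans (le_max_left _ _)
  have hb2 : ∀ s : ℂ, 5 / 4 ≤ s.re → ‖π.L s‖ ≤ B * π.C ^ (1 / 4 : ℝ) := by
    intro s hs
    refine (hB₂ π hπ s (by linarith)).trans ?_
    gcongr
    exact (le_max_right _ _).trans (le_max_left _ _)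
  have hgr : ∀ s : ℂ, 1 / 4 ≤ s.re → ‖π.L s‖ ≤ (16 * AR) ^ m * B * (π.C * (1 + |s.im|) ^ m) :=
    fun s hs => grow_entire π hd (LData.order hd) hB1 hb2 hs
  set G := (16 * AR) ^ m * B with hG
  have hG1 : 1 ≤ G := one_le_mul_of_one_le_of_one_le (one_le_pow₀ (by linarith)) hB1
  have hXc : ∀ v : ℝ, π.X (t + v) ≤ π.X t * (1 + |v|) ^ m := fun v => qcomp (by linarith) m t v
  have hX1 := π.one_le_X t
  have h2A : 1 ≤ (2 * AR) ^ m := one_le_pow₀ (by linarith)
  set f : ℂ → ℂ := fun z => π.L (1 / 2 + t * I + z) with hf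
  have h1 := strip_max (f := f) (w := w) (M := AR ^ m * q₁ * B * π.C ^ δ)
    (M' := (2 * AR) ^ m * G * π.X t ^ 2) (p := m) (p' := m * 2) (by linarith) (fun z hz =>
      (hd _).comp z ((differentiableAt_const _).add differentiableAt_id)) (by positivity)
    (by positivity) (fun z hz => by
      have hz' := abs_le.mp hz
      have e : (1 / 2 + t * I + z : ℂ).im = t + z.im := by simp
      have hv1 : 1 ≤ 1 + |z.im| := by have := abs_nonneg z.im; linarith
      have hXv := π.one_le_X (t + z.im)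
      have hfin : (2 * AR) ^ m * G * π.X (t + z.im) ^ 2 ≤
          (2 * AR) ^ m * G * π.X t ^ 2 * (1 + |z.im|) ^ (m * 2) := by
        have := hXc z.im
        calc (2 * AR) ^ m * G * π.X (t + z.im) ^ 2 ≤
              (2 * AR) ^ m * G * (π.X t * (1 + |z.im|) ^ m) ^ 2 := by gcongr
          _ = _ := by ring
      refine le_trans ?_ hfin
      rcases le_or_gt (-(1 / 4)) z.re with h5 | h5
      · have h1 := hgr (1 / 2 + t * I + z) (by simp; linarith)
        rw [e] at h1
        refine h1.trans ?_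
        have h6 : π.C * (1 + |t + z.im|) ^ m = π.X (t + z.im) := rfl
        rw [h6]
        calc G * π.X (t + z.im) = 1 * G * (π.X (t + z.im) * 1) := by ring
          _ ≤ (2 * AR) ^ m * G * (π.X (t + z.im) * π.X (t + z.im)) := by gcongr
          _ = _ := by ring
      · set y := -z.re with hy
        have hy0 : 0 < y := by linarith
        have hy1 : y < 1 := by linarith [hz'.1]
        have e2 : (1 / 2 + t * I + z : ℂ) = 1 / 2 - y + ((t + z.im : ℝ) : ℂ) * I := by
          apply Complex.ext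
          · simp [hy]
          · simp
        simp only [hf]
        rw [e2]
        refine (π.refl hd.continuous hy0 hy1 (t + z.im)).trans ?_
        have h1 := hgr (1 / 2 + y + ((t + z.im : ℝ) : ℂ) * I) (by simp; linarith)
        have e3 : (1 / 2 + y + ((t + z.im : ℝ) : ℂ) * I : ℂ).im = t + z.im := by simp
        rw [e3] at h1
        have h6 : π.C * (1 + |t + z.im|) ^ m = π.X (t + z.im) := rfl
        rw [h6] at h1 ⊢
        have h7 : π.X (t + z.im) ^ y ≤ π.X (t + z.im) := by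
          calc π.X (t + z.im) ^ y ≤ π.X (t + z.im) ^ (1:ℝ) :=
                Real.rpow_le_rpow_of_exponent_le hXv hy1.le
            _ = _ := Real.rpow_one _
        calc (2 * AR) ^ m * π.X (t + z.im) ^ y * ‖π.L (1 / 2 + y + ((t + z.im : ℝ) : ℂ) * I)‖
            ≤ (2 * AR) ^ m * π.X (t + z.im) * (G * π.X (t + z.im)) := by gcongr
          _ = _ := by ring) (fun z hz => by
      have hv1 : 1 ≤ 1 + |z.im| := by have := abs_nonneg z.im; linarith
      have hv2 : (1:ℝ) ≤ (1 + |z.im|) ^ m := one_le_pow₀ hv1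
      have right : ‖π.L (1 / 2 + w + ((t + z.im : ℝ) : ℂ) * I)‖ ≤ B * π.C ^ δ :=
        hb1 _ (by simp [hw]; linarith)
      have hlq : lq π (t + z.im) ≤ q₁ * (1 + |z.im|) ^ m := by
        have h3 := lq_shift π (t + z.im) (-z.im)
        rw [abs_neg, add_neg_cancel_right] at h3
        calc lq π (t + z.im) ≤ (1 + |z.im|) ^ m * lq π t := h3
          _ ≤ (1 + |z.im|) ^ m * q₁ := by gcongr
          _ = _ := mul_comm _ _
      rcases abs_choice z.re with h5 | h5
      · have e : (1 / 2 + t * I + z : ℂ) = 1 / 2 + w + ((t + z.im : ℝ) : ℂ) * I := by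
          rw [h5] at hz
          apply Complex.ext
          · simp [hz]
          · simp
        simp only [hf]
        rw [e]
        refine right.trans ?_
        calc B * π.C ^ δ = 1 * 1 * (B * π.C ^ δ) * 1 := by ring
          _ ≤ AR ^ m * q₁ * (B * π.C ^ δ) * (1 + |z.im|) ^ m := by gcongr
          _ = _ := by ring
      · have e : (1 / 2 + t * I + z : ℂ) = 1 / 2 - w + ((t + z.im : ℝ) : ℂ) * I := by
          rw [h5] at hz
          have : z.re = -w := by linarith
          apply Complex.ext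
          · simp [this]; ring
          · simp
        simp only [hf]
        rw [e]
        refine (refl_local π hd.continuous (by linarith) (by linarith) (t + z.im)).trans ?_
        have h7 : lq π (t + z.im) ^ w ≤ q₁ * (1 + |z.im|) ^ m := by
          calc lq π (t + z.im) ^ w ≤ lq π (t + z.im) ^ (1:ℝ) :=
                Real.rpow_le_rpow_of_exponent_le (one_le_lq π _) (by linarith)
            _ = lq π (t + z.im) := Real.rpow_one _
            _ ≤ _ := hlq
        calc AR ^ m * lq π (t + z.im) ^ w * ‖π.L (1 / 2 + w + ((t + z.im : ℝ) : ℂ) * I)‖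
            ≤ AR ^ m * (q₁ * (1 + |z.im|) ^ m) * (B * π.C ^ δ) := by gcongr
          _ = _ := by ring) (x := x) (by rw [abs_of_nonneg hx0]; linarith)
  have e : (1 / 2 + x + t * I : ℂ) = 1 / 2 + t * I + x := by ring
  rw [e]
  refine h1.trans (le_of_eq ?_)
  ring

end Pool.Agent.H61.Ray
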