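import Mathlib

/-! The weight of the positivity argument. -/

set_option autoImplicit false

open Complex Set Filter Topology Metric

namespace Pool.Agent.H61.Ray

/-- The weight. -/
noncomputable def wt (M η : ℝ) (Z : Finset ℝ) (z : ℂ) : ℂ :=
  cexp (M * z ^ 2) * (η ^ 2 + z ^ 2) * ∏ γ ∈ Z, (-(z - γ * I) ^ 2)

/-- Its values on the line. -/
noncomputable def wtr (M η : ℝ) (Z : Finset ℝ) (y : ℝ) : ℝ :=
  Real.exp (-(M * y ^ 2)) * (η ^ 2 - y ^ 2) * ∏ γ ∈ Z, (y - γ) ^ 2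

lemma differentiable_wt (M η : ℝ) (Z : Finset ℝ) : Differentiable ℂ (wt M η Z) := by
  unfold wt
  fun_prop

lemma wt_line (M η : ℝ) (Z : Finset ℝ) (y : ℝ) : wt M η Z (y * I) = wtr M η Z y := by
  unfold wt wtr
  push_cast
  have e1 : ((y : ℂ) * I) ^ 2 = -(y : ℂ) ^ 2 := by rw [mul_pow, I_sq]; ring
  rw [e1]
  congr 1
  · congr 1
    · congr 1; ring
  · refine Finset.prod_congr rfl fun γ _ => ?_
    have : ((y : ℂ) * I - γ * I) ^ 2 = -((y : ℂ) - γ) ^ 2 := by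
      rw [← sub_mul, mul_pow, I_sq]; ring
    rw [this, neg_neg]

lemma wtr_nonneg (M : ℝ) {η : ℝ} (Z : Finset ℝ) {y : ℝ} (hy : |y| ≤ η) : 0 ≤ wtr M η Z y := by
  unfold wtr
  have h1 : y ^ 2 ≤ η ^ 2 := by
    rw [← sq_abs y]
    have := abs_nonneg y
    gcongr
  have h2 : 0 ≤ η ^ 2 - y ^ 2 := by linarith
  have h3 : 0 ≤ ∏ γ ∈ Z, (y - γ) ^ 2 := Finset.prod_nonneg fun _ _ => sq_nonneg _
  positivity

lemma wt_zero (M η : ℝ) (Z : Finset ℝ) {y : ℝ} (hy : y ∈ Z) :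
    ∃ C : ℝ, ∀ᶠ u : ℝ in 𝓝 y, ‖wt M η Z (u * I)‖ ≤ C * |u - y| ^ 2 := by
  classical
  set G : ℂ → ℂ := fun z => cexp (M * z ^ 2) * (η ^ 2 + z ^ 2) * -∏ γ ∈ Z.erase y, (-(z - γ * I) ^ 2)
    with hG
  have hGc : Continuous fun u : ℝ => G (u * I) := by
    rw [hG]
    fun_prop
  have hfac : ∀ z : ℂ, wt M η Z z = (z - y * I) ^ 2 * G z := by
    intro z
    unfold wt
    rw [← Finset.mul_prod_erase Z (fun γ => -(z - (γ : ℂ) * I) ^ 2) hy, hG]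
    ring
  refine ⟨‖G (y * I)‖ + 1, ?_⟩
  filter_upwards [(hGc.norm.continuousAt (x := y)).eventually_le_const
    (show ‖G (y * I)‖ < ‖G (y * I)‖ + 1 by linarith)] with u hu
  rw [hfac, norm_mul, norm_pow, ← sub_mul, norm_mul, norm_I, mul_one, ← ofReal_sub, norm_real,
    Real.norm_eq_abs, mul_comm]
  gcongr

lemma norm_cexp_sq (M : ℝ) (z : ℂ) : ‖cexp (M * z ^ 2)‖ = Real.exp (M * (z.re ^ 2 - z.im ^ 2)) := by
  rw [norm_exp]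
  congr 1
  simp [pow_two]

lemma norm_prod_le {Z : Finset ℝ} {η : ℝ} (hη : η ≤ 1) (hZ : ∀ γ ∈ Z, |γ| ≤ η) {z : ℂ}
    (h0 : 0 ≤ z.re) (h1 : z.re ≤ 1) (h2 : |z.im| ≤ η) :
    ‖∏ γ ∈ Z, (-(z - γ * I) ^ 2)‖ ≤ 5 ^ Z.card := by
  rw [norm_prod, ← Finset.prod_const (5:ℝ)]
  refine Finset.prod_le_prod (fun _ _ => norm_nonneg _) fun γ hγ => ?_
  rw [norm_neg, norm_pow, ← Complex.normSq_eq_norm_sq, Complex.normSq_apply]
  have h3 := abs_le.mp (hZ γ hγ)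
  have h4 := abs_le.mp h2
  have e1 : (z - γ * I).re = z.re := by simp
  have e2 : (z - γ * I).im = z.im - γ := by simp
  rw [e1, e2]
  nlinarith

lemma norm_wt_le {M η x₁ : ℝ} (hM : 0 ≤ M) (hη : η ≤ 1) (hx₁ : x₁ ≤ 1)
    {Z : Finset ℝ} (hZ : ∀ γ ∈ Z, |γ| ≤ η) {z : ℂ} (h0 : 0 ≤ z.re) (h1 : z.re ≤ x₁)
    (h2 : |z.im| ≤ η) : ‖wt M η Z z‖ ≤ 3 * 5 ^ Z.card * Real.exp (M * x₁ ^ 2) := by
  have hη0 : 0 ≤ η := (abs_nonneg _).trans h2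
  unfold wt
  rw [norm_mul, norm_mul, norm_cexp_sq]
  have h3 := norm_prod_le hη hZ h0 (h1.trans hx₁) h2
  have h4 : ‖(η ^ 2 + z ^ 2 : ℂ)‖ ≤ 3 := by
    refine (norm_add_le _ _).trans ?_
    rw [norm_pow, norm_pow, norm_real, Real.norm_of_nonneg hη0, ← Complex.normSq_eq_norm_sq,
      Complex.normSq_apply]
    have h4 := abs_le.mp h2
    nlinarith
  have h5 : Real.exp (M * (z.re ^ 2 - z.im ^ 2)) ≤ Real.exp (M * x₁ ^ 2) := by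
    apply Real.exp_le_exp.mpr
    have : z.re ^ 2 ≤ x₁ ^ 2 := by gcongr
    have h6 := sq_nonneg z.im
    gcongr
    linarith
  calc Real.exp (M * (z.re ^ 2 - z.im ^ 2)) * ‖(η ^ 2 + z ^ 2 : ℂ)‖ * ‖∏ γ ∈ Z, (-(z - γ * I) ^ 2)‖
      ≤ Real.exp (M * x₁ ^ 2) * 3 * 5 ^ Z.card := by gcongr
    _ = _ := by ring

lemma norm_wt_edge {M η x₁ : ℝ} (hM : 0 ≤ M) (hη : η ≤ 1) (hx₁ : x₁ ≤ 1)
    {Z : Finset ℝ} (hZ : ∀ γ ∈ Z, |γ| ≤ η) {z : ℂ} (h0 : 0 ≤ z.re) (h1 : z.re ≤ x₁)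
    (h2 : |z.im| = η) :
    ‖wt M η Z z‖ ≤ 3 * 5 ^ Z.card * Real.exp (M * (x₁ ^ 2 - η ^ 2)) * z.re := by
  have hη0 : 0 ≤ η := (abs_nonneg _).trans h2.le
  have him : z.im ^ 2 = η ^ 2 := by rw [← h2, sq_abs]
  unfold wt
  rw [norm_mul, norm_mul, norm_cexp_sq, him]
  have h3 := norm_prod_le hη hZ h0 (h1.trans hx₁) h2.le
  have h4 : ‖(η ^ 2 + z ^ 2 : ℂ)‖ ≤ 3 * z.re := by
    have e : (η ^ 2 + z ^ 2 : ℂ) = z.re * (z.re + 2 * z.im * I) := by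
      apply Complex.ext
      · simp [pow_two]
        nlinarith
      · simp [pow_two]
        ring
    rw [e, norm_mul, norm_real, Real.norm_of_nonneg h0]
    have h5 : ‖(z.re + 2 * z.im * I : ℂ)‖ ≤ 3 := by
      refine (norm_add_le _ _).trans ?_
      rw [norm_mul, norm_mul, norm_I, norm_real, norm_real, Real.norm_of_nonneg h0,
        Real.norm_eq_abs, h2]
      have : ‖(2:ℂ)‖ = 2 := by simp
      rw [this]
      linarith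
    nlinarith
  have h5 : Real.exp (M * (z.re ^ 2 - η ^ 2)) ≤ Real.exp (M * (x₁ ^ 2 - η ^ 2)) := by
    apply Real.exp_le_exp.mpr
    have : z.re ^ 2 ≤ x₁ ^ 2 := by gcongr
    gcongr
  calc Real.exp (M * (z.re ^ 2 - η ^ 2)) * ‖(η ^ 2 + z ^ 2 : ℂ)‖ * ‖∏ γ ∈ Z, (-(z - γ * I) ^ 2)‖
      ≤ Real.exp (M * (x₁ ^ 2 - η ^ 2)) * (3 * z.re) * 5 ^ Z.card := by gcongr
    _ = _ := by ring

lemma norm_wt_ge {M η x₀ : ℝ} (hM : 0 ≤ M) (hx₀ : 0 < x₀) (Z : Finset ℝ) :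
    η ^ 2 * (x₀ ^ 2) ^ Z.card ≤ ‖wt M η Z x₀‖ := by
  unfold wt
  rw [norm_mul, norm_mul, norm_cexp_sq]
  have h1 : 1 ≤ Real.exp (M * ((x₀ : ℂ).re ^ 2 - (x₀ : ℂ).im ^ 2)) := by
    rw [ofReal_re, ofReal_im]
    apply Real.one_le_exp
    have : M * (x₀ ^ 2 - 0 ^ 2) = M * x₀ ^ 2 := by ring
    rw [this]
    positivity
  have h2 : η ^ 2 ≤ ‖((η : ℂ) ^ 2 + (x₀ : ℂ) ^ 2)‖ := by
    have e : ((η : ℂ) ^ 2 + (x₀ : ℂ) ^ 2) = ((η ^ 2 + x₀ ^ 2 : ℝ) : ℂ) := by push_cast; ring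
    rw [e, norm_real, Real.norm_of_nonneg (by positivity)]
    nlinarith
  have h3 : (x₀ ^ 2) ^ Z.card ≤ ‖∏ γ ∈ Z, (-((x₀ : ℂ) - γ * I) ^ 2)‖ := by
    rw [norm_prod, ← Finset.prod_const (x₀ ^ 2)]
    refine Finset.prod_le_prod (fun _ _ => by positivity) fun γ _ => ?_
    rw [norm_neg, norm_pow, ← Complex.normSq_eq_norm_sq, Complex.normSq_apply]
    simp
    nlinarith
  calc η ^ 2 * (x₀ ^ 2) ^ Z.card = 1 * η ^ 2 * (x₀ ^ 2) ^ Z.card := by ring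
    _ ≤ _ := by gcongr

end Pool.Agent.H61.Ray
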