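import Pool.Agent.H61.Ray.Core
import Pool.Agent.H61.Ray.Weight
import Pool.Agent.H61.Ray.Refined
import Pool.Agent.H61.Ray.Strip
import Pool.Agent.H61.Ray.Defs

/-! The improvement step. -/

set_option autoImplicit false

open Complex Set Filter Topology Metric

namespace Pool.Agent.H61.Ray

open Pool.Agent.H23.GLM Pool.Agent.H23.GLH

variable {m : ℕ}

lemma norm_L_F (π : LData m) {s : ℂ} (h0 : 1 / 4 ≤ s.re) (h1 : s.re ≤ 3 / 4) :
    ‖π.F s‖ ≤ ‖π.L s‖ ∧ ‖π.L s‖ ≤ 7 * ‖π.F s‖ := by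
  by_cases h : Differentiable ℂ π.L
  · rw [LData.F_pos h]
    have := norm_nonneg (π.L s)
    constructor <;> linarith
  · obtain ⟨_, _, hL⟩ := LData.zeta_of h
    rw [LData.F_neg h, hL, Fz_eq (by linarith) (ne_one_of_re_lt (by linarith)), norm_mul]
    have h1 := norm_ratio_le h0 h1
    have hz := norm_nonneg (riemannZeta s)
    constructor
    · nlinarith [h1.1]
    · nlinarith [h1.2]

lemma L_diff (π : LData m) {s : ℂ} (hs : s.re < 1) : DifferentiableAt ℂ π.L s := by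
  rcases π.regular with ⟨h, _⟩ | ⟨_, _, _, h⟩
  · exact h s
  · rw [h]
    exact differentiableAt_riemannZeta (ne_one_of_re_lt hs)

/-- The crude bound in a window. -/
lemma win_crude {S : Set (LData m)} (hM : Molteni S) : ∃ B : ℝ, 1 ≤ B ∧ ∀ π ∈ S, ∀ t : ℝ, ∀ z : ℂ,
    0 ≤ z.re → z.re ≤ 1 / 4 → |z.im| ≤ 1 → ‖π.L (1 / 2 + t * I + z)‖ ≤ B * π.X t := by
  obtain ⟨A, hA⟩ := exists_adm hM
  have hA1 := hA.one_le_A
  refine ⟨7 * A * 2 ^ m, ?_, fun π hπ t z h0 h1 h2 => ?_⟩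
  · have : (1:ℝ) ≤ 2 ^ m := one_le_pow₀ (by norm_num)
    nlinarith
  have h3 := (norm_L_F π (s := 1 / 2 + t * I + z) (by simp; linarith) (by simp; linarith)).2
  have h4 := hA.grow ⟨π, hπ⟩ (1 / 2 + t * I + z) (by simp; linarith)
  rw [pow_one] at h4
  have e : (1 / 2 + t * I + z : ℂ).im = t + z.im := by simp
  rw [e] at h4
  simp only at h4
  have hC := π.one_le_C
  have h5 := qcomp (c := π.C) (by linarith) m t z.im
  have h6 : (1 + |z.im|) ^ m ≤ 2 ^ m := by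
    have := abs_nonneg z.im
    gcongr
    linarith
  have h7 : π.C * (1 + |t|) ^ m = π.X t := rfl
  have hX := π.one_le_X t
  rw [h7] at h5
  calc ‖π.L (1 / 2 + t * I + z)‖ ≤ 7 * ‖π.F (1 / 2 + t * I + z)‖ := h3
    _ ≤ 7 * (A * (π.C * (1 + |t + z.im|) ^ m)) := by gcongr
    _ ≤ 7 * (A * (π.X t * 2 ^ m)) := by
        have : π.C * (1 + |t + z.im|) ^ m ≤ π.X t * 2 ^ m := h5.trans (by gcongr)
        gcongr
    _ = _ := by ring

/-- The convexity bound in a window. -/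
lemma win_conv {S : Set (LData m)} (hM : Molteni S) {b τ : ℝ} (hb0 : 0 ≤ b) (hb1 : b ≤ 1)
    (hτ : 0 < τ) (hB : Bound S b) : ∃ B : ℝ, 1 ≤ B ∧ ∀ π ∈ S, ∀ t : ℝ, ∀ z : ℂ,
    0 ≤ z.re → z.re ≤ 1 / 4 → |z.im| ≤ 1 →
      ‖π.L (1 / 2 + t * I + z)‖ ≤ B * π.X t ^ (b - (b - τ) / (1 / 2 + τ) * z.re) := by
  obtain ⟨A, hA⟩ := exists_adm hM
  have hA1 := hA.one_le_A
  obtain ⟨B₁, hB₁⟩ := hB
  obtain ⟨B₂, hB₂⟩ := hA.edge τ hτ
  set B := max (max B₁ B₂) 1 with hBdef
  have hB1 : 1 ≤ B := le_max_right _ _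
  have hBB1 : B₁ ≤ B := (le_max_left _ _).trans (le_max_left _ _)
  have hBB2 : B₂ ≤ B := (le_max_right _ _).trans (le_max_left _ _)
  refine ⟨7 * (B * 6 ^ m), ?_, fun π hπ t z h0 h1 h2 => ?_⟩
  · have : (1:ℝ) ≤ 6 ^ m := one_le_pow₀ (by norm_num)
    nlinarith
  have hC := π.one_le_C
  set Q := π.X t with hQ
  have hQ1 : 1 ≤ Q := π.one_le_X t
  have hQ0 : 0 < Q := by linarith
  have hcomp : ∀ v : ℝ, π.C * (1 + |t + v|) ^ m ≤ Q * (1 + |v|) ^ m := fun v =>
    qcomp (by linarith) m t v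
  set f : ℂ → ℂ := fun z => π.F (1 / 2 + t * I + z) with hf
  have hU : IsOpen {s : ℂ | 0 < s.re} := isOpen_lt continuous_const Complex.continuous_re
  have key := conv_right (f := f) (Q := Q) (A := A) (B := B) (a := b) (w := 1 / 2 + τ) (δ := τ)
    (k := 1) (n := m) (fun z hz => by
      have h1 : 0 < (1 / 2 + t * I + z : ℂ).re := by simp; linarith
      have h2 : DifferentiableAt ℂ π.F (1 / 2 + t * I + z) :=
        (hA.diff ⟨π, hπ⟩ _ h1).differentiableAt (hU.mem_nhds h1)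
      exact h2.comp z ((differentiableAt_const _).add differentiableAt_id)) hQ1 (by linarith)
    (fun z hz => by
      have h1 := hA.grow ⟨π, hπ⟩ (1 / 2 + t * I + z) (by simp; linarith)
      have e : (1 / 2 + t * I + z : ℂ).im = t + z.im := by simp
      rw [e] at h1
      refine h1.trans ?_
      have := hcomp z.im
      gcongr) hb0 (by simpa using hb1) (by linarith) (by positivity)
    (fun v => by
      have e : (1 / 2 + t * I + v * I : ℂ) = 1 / 2 + ((t + v : ℝ) : ℂ) * I := by push_cast; ring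
      simp only [hf]
      rw [e]
      refine ((norm_F_le_L π (t + v)).1.trans (hB₁ π hπ (t + v))).trans ?_
      have h3 := hcomp v
      have h4 : π.X (t + v) ^ b ≤ (Q * (1 + |v|) ^ m) ^ b :=
        Real.rpow_le_rpow (by linarith [π.one_le_X (t + v)]) h3 hb0
      have h5 : 0 ≤ π.X (t + v) ^ b := by have := π.one_le_X (t + v); positivity
      gcongr)
    (fun z hz => by
      simp only [hf]
      refine (hB₂ ⟨π, hπ⟩ _ (by simp; linarith)).trans ?_
      have h3 : π.C ^ τ ≤ Q ^ τ := Real.rpow_le_rpow (by linarith) (π.C_le_X t) hτ.le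
      have h4 : 0 ≤ π.C ^ τ := by positivity
      simp only
      gcongr) (z := z) h0 (by linarith)
  have h3 := (norm_L_F π (s := 1 / 2 + t * I + z) (by simp; linarith) (by simp; linarith)).2
  have h4 : ‖1 + z‖ ≤ 3 := by
    have h5 := norm_add_le (1:ℂ) z
    have h6 := Complex.norm_le_abs_re_add_abs_im z
    rw [abs_of_nonneg h0] at h6
    rw [norm_one] at h5
    linarith
  simp only [mul_one] at key
  have hQp : 0 < Q ^ (b - (b - τ) / (1 / 2 + τ) * z.re) := Real.rpow_pos_of_pos hQ0 _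
  calc ‖π.L (1 / 2 + t * I + z)‖ ≤ 7 * ‖f z‖ := h3
    _ ≤ 7 * (B * 2 ^ m * ‖1 + z‖ ^ m * Q ^ (b - (b - τ) / (1 / 2 + τ) * z.re)) := by gcongr
    _ ≤ 7 * (B * 2 ^ m * 3 ^ m * Q ^ (b - (b - τ) / (1 / 2 + τ) * z.re)) := by gcongr
    _ = 7 * (B * (2 * 3) ^ m) * Q ^ (b - (b - τ) / (1 / 2 + τ) * z.re) := by
        rw [mul_pow]; ring
    _ = _ := by norm_num

/-- The bound at one point, from a ray which is avoided. -/
theorem ray_point {π : LData m} {d η x₁ x₀ e : ℝ} (hd : 0 < d) (hg : Gap π d) (hη : 0 < η)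
    (hη1 : η ≤ 1) (hx₁ : 0 < x₁) (hx₁4 : x₁ ≤ 1 / 4) (hx₁d : x₁ ≤ d / 2) (hx₁η : x₁ ≤ η)
    (hx₀ : 0 < x₀) (hx₀' : x₀ < x₁ / 2) (he : 0 ≤ e) {t θ : ℝ} {Z : Finset ℝ} {ε₀ : ℂ}
    (hfe : ∀ z : ℂ, |z.re| < d → π.L (1 / 2 + z) =
      rat π ε₀ z * (starRingEnd ℂ) (π.L (1 / 2 - (starRingEnd ℂ) z)))
    (hε₀ : ‖ε₀‖ = 1)
    (href : ∀ u : ℝ, |u - t| ≤ η → ∀ x : ℝ, 0 ≤ x → x ≤ d / 2 →
      ‖rat π ε₀ (x + u * I)‖ ≤ Real.exp (-x))
    (hray : ∀ u ∈ Icc (t - η) (t + η), u ∉ Z → ∀ r : ℝ, π.X u ^ e < r →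
      π.L (1 / 2 + u * I) ≠ r * cexp (θ * I))
    {U V : ℝ} (hU : ∀ z : ℂ, x₁ / 2 ≤ z.re → z.re ≤ x₁ → |z.im| ≤ η →
      ‖π.L (1 / 2 + t * I + z)‖ ≤ U)
    (hV : ∀ z : ℂ, 0 ≤ z.re → z.re ≤ x₁ → |z.im| ≤ η → ‖π.L (1 / 2 + t * I + z)‖ ≤ V) :
    ‖π.L (1 / 2 + t * I + x₀)‖ ≤ (5 / x₀ ^ 2) ^ Z.card * π.X t ^ (x₁ ^ 2 / η ^ 2) *
      ((36 * (U + ((2 ^ m * π.X t) ^ e + 1)) + 12 * (V / π.X t + ((2 ^ m * π.X t) ^ e + 1))) /
        (η ^ 2 * x₀)) + ((2 ^ m * π.X t) ^ e + 1) := by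
  classical
  set Q := π.X t with hQ
  have hQ1 : 1 ≤ Q := π.one_le_X t
  have hQ0 : 0 < Q := by linarith
  set B := (2 ^ m * Q) ^ e + 1 with hB
  have hB1 : 1 ≤ B := by
    have : 0 ≤ (2 ^ m * Q) ^ e := by positivity
    rw [hB]; linarith
  set ξ := x₁ ^ 2 / η ^ 2 with hξ
  set M := Real.log Q / η ^ 2 with hM
  have hM0 : 0 ≤ M := div_nonneg (Real.log_nonneg hQ1) (by positivity)
  set Z' := (Z.image fun u => u - t).filter fun y => |y| ≤ η with hZ'
  have hZ'η : ∀ γ ∈ Z', |γ| ≤ η := fun γ hγ => (Finset.mem_filter.mp hγ).2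
  have hcard : Z'.card ≤ Z.card := (Finset.card_filter_le _ _).trans Finset.card_image_le
  set E := cexp (-θ * I) with hE
  have hEE : E * (starRingEnd ℂ) E = 1 := by
    rw [hE, ← Complex.exp_conj, ← Complex.exp_add]
    simp
  have hEn : ‖E‖ = 1 := by
    rw [hE, norm_exp]
    simp
  have hEi : cexp (θ * I) = (starRingEnd ℂ) E := by
    rw [hE, ← Complex.exp_conj]
    congr 1
    simp
  set f : ℂ → ℂ := fun z => -E * π.L (1 / 2 + t * I + z) with hf
  set h : ℂ → ℂ := fun z => E ^ 2 * rat π ε₀ (z + t * I) with hh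
  have hfn : ∀ z, ‖f z‖ = ‖π.L (1 / 2 + t * I + z)‖ := by
    intro z
    simp only [hf]
    rw [norm_mul, norm_neg, hEn, one_mul]
  have hfunc : ∀ y : ℝ, f (y * I) = h (y * I) * (starRingEnd ℂ) (f (y * I)) := by
    intro y
    have e1 := hfe (((t + y : ℝ) : ℂ) * I) (by simpa using hd)
    have e2 : (1 / 2 - (starRingEnd ℂ) (((t + y : ℝ) : ℂ) * I) : ℂ) =
        1 / 2 + ((t + y : ℝ) : ℂ) * I := by
      rw [map_mul, conj_I, conj_ofReal]; ring
    rw [e2] at e1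
    have e3 : (1 / 2 + t * I + y * I : ℂ) = 1 / 2 + ((t + y : ℝ) : ℂ) * I := by push_cast; ring
    have e4 : ((y : ℂ) * I + t * I) = ((t + y : ℝ) : ℂ) * I := by push_cast; ring
    simp only [hf, hh]
    rw [e3, e4, map_mul, map_neg]
    nth_rewrite 1 [e1]
    linear_combination (E * rat π ε₀ (((t + y : ℝ) : ℂ) * I) *
      (starRingEnd ℂ) (π.L (1 / 2 + ((t + y : ℝ) : ℂ) * I))) * hEE
  have hXy : ∀ y : ℝ, |y| ≤ η → π.X (t + y) ^ e < B := by
    intro y hy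
    have h1 : π.X (t + y) ≤ 2 ^ m * Q := by
      have h2 := qcomp (c := π.C) (by linarith [π.one_le_C]) m t y
      have h3 : (1 + |y|) ^ m ≤ 2 ^ m := by
        have := abs_nonneg y
        gcongr
        linarith
      calc π.X (t + y) ≤ Q * (1 + |y|) ^ m := h2
        _ ≤ Q * 2 ^ m := by gcongr
        _ = _ := mul_comm _ _
    have h2 : π.X (t + y) ^ e ≤ (2 ^ m * Q) ^ e :=
      Real.rpow_le_rpow (by linarith [π.one_le_X (t + y)]) h1 he
    rw [hB]; linarith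
  have H : Hyp f h (wt M η Z') (wtr M η Z') x₁ η B (Z' : Set ℝ) := by
    refine ⟨hx₁, by linarith, hη, ?_, ?_, differentiable_wt _ _ _, ?_, ?_, fun y _ => hfunc y,
      fun y hy => ⟨wtr_nonneg _ _ hy, wt_line _ _ _ _⟩,
      fun y hy _ => wt_zero _ _ _ (Finset.mem_coe.mp hy), by linarith, ?_⟩
    · intro z h0 h1 h2
      have h3 : DifferentiableAt ℂ π.L (1 / 2 + t * I + z) := L_diff π (by simp; linarith)
      exact (h3.comp z ((differentiableAt_const _).add differentiableAt_id)).const_mul _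
    · intro z h0 h1 h2
      have h3 : DifferentiableAt ℂ (rat π ε₀) (z + t * I) := rat_diff hg ε₀ (by
        have : (z + t * I).re = z.re := by simp
        rw [this, abs_of_nonneg h0]
        linarith)
      exact (h3.comp z (differentiableAt_id.add (differentiableAt_const _))).const_mul _
    · intro y hy
      simp only [hh]
      rw [norm_mul, norm_pow, hEn, one_pow, one_mul, norm_rat_line hd hg hε₀ (by simp)]
    · intro z h0 h1 h2
      simp only [hh]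
      rw [norm_mul, norm_pow, hEn, one_pow, one_mul]
      have h3 := href (t + z.im) (by simpa using h2) z.re h0 (by linarith)
      have e1 : z + t * I = z.re + ((t + z.im : ℝ) : ℂ) * I := by
        apply Complex.ext
        · simp
        · simp; ring
      rw [e1]
      exact h3
    · intro y hy hyZ h1
      by_contra hcon
      push Not at hcon
      have h2 := hfunc y
      rw [h1, one_mul] at h2
      have him : (f (y * I)).im = 0 := by
        have := congrArg Complex.im h2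
        simp at this
        linarith
      have hfr : f (y * I) = ((f (y * I)).re : ℂ) := by
        apply Complex.ext
        · simp
        · simp [him]
      have hu : t + y ∉ Z := by
        intro hmem
        apply hyZ
        rw [hZ', Finset.mem_coe, Finset.mem_filter, Finset.mem_image]
        exact ⟨⟨t + y, hmem, by ring⟩, hy⟩
      have hy' := abs_le.mp hy
      refine hray (t + y) ⟨by linarith, by linarith⟩ hu (-(f (y * I)).re)
        (by linarith [hXy y hy]) ?_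
      rw [hEi]
      push_cast
      rw [← hfr]
      simp only [hf]
      have e3 : (1 / 2 + t * I + y * I : ℂ) = 1 / 2 + (t + y) * I := by ring
      rw [e3]
      linear_combination (-π.L (1 / 2 + (t + y) * I)) * hEE
  have key := H.final (by linarith) (F₀ := η ^ 2 * (x₀ ^ 2) ^ Z'.card)
    (F₁ := 3 * 5 ^ Z'.card * Real.exp (M * x₁ ^ 2))
    (F₂ := 3 * 5 ^ Z'.card * Real.exp (M * (x₁ ^ 2 - η ^ 2))) (U := U) (V := V)
    (by positivity) (by positivity) (by positivity)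
    (fun z h0 h1 h2 => norm_wt_le hM0 hη1 (by linarith) hZ'η h0 h1 h2)
    (fun z h0 h1 h2 => norm_wt_edge hM0 hη1 (by linarith) hZ'η h0 h1 h2)
    (fun z h0 h1 h2 => by rw [hfn]; exact hU z h0 h1 h2)
    (fun z h0 h1 h2 => by rw [hfn]; exact hV z h0 h1 h2) hx₀ hx₀' (norm_wt_ge hM0 hx₀ Z')
  rw [hfn] at key
  have e1 : Real.exp (M * x₁ ^ 2) = Q ^ ξ := by
    rw [Real.rpow_def_of_pos hQ0, hM, hξ]
    congr 1; ring
  have e2 : Real.exp (M * (x₁ ^ 2 - η ^ 2)) = Q ^ ξ / Q := by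
    have e3 : M * (x₁ ^ 2 - η ^ 2) = M * x₁ ^ 2 - Real.log Q := by
      rw [hM]; field_simp
    rw [e3, Real.exp_sub, e1, Real.exp_log hQ0]
  rw [e1, e2] at key
  have hU0 : 0 ≤ U := (norm_nonneg _).trans (hU ((x₁ : ℝ) : ℂ) (by rw [ofReal_re]; linarith)
    (by rw [ofReal_re]) (by rw [ofReal_im, abs_zero]; exact hη.le))
  have hV0 : 0 ≤ V := (norm_nonneg _).trans (hV ((x₁ : ℝ) : ℂ) (by rw [ofReal_re]; linarith)
    (by rw [ofReal_re]) (by rw [ofReal_im, abs_zero]; exact hη.le))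
  have hQξ : 0 < Q ^ ξ := Real.rpow_pos_of_pos hQ0 _
  refine key.trans ?_
  have e4 : (12 * (3 * 5 ^ Z'.card * Q ^ ξ) * (U + B) +
      4 * (3 * 5 ^ Z'.card * (Q ^ ξ / Q)) * (V + B)) / (η ^ 2 * (x₀ ^ 2) ^ Z'.card * x₀) =
      (5 / x₀ ^ 2) ^ Z'.card * Q ^ ξ * ((36 * (U + B) + 12 * (V / Q + B / Q)) / (η ^ 2 * x₀)) := by
    rw [div_pow]
    field_simp
    ring
  rw [e4]
  have h5 : 1 ≤ 5 / x₀ ^ 2 := by
    rw [le_div_iff₀ (by positivity)]
    nlinarith
  have h6 : (5 / x₀ ^ 2) ^ Z'.card ≤ (5 / x₀ ^ 2) ^ Z.card := pow_le_pow_right₀ h5 hcard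
  have h7 : B / Q ≤ B := div_le_self (by linarith) hQ1
  gcongr

end Pool.Agent.H61.Ray
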