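import Mathlib

/-! The positivity argument: a function which on a segment of the critical line equals `h` times its
conjugate, `|h| = 1`, is bounded to the right of the line by a one-sided bound at the points where
`h = 1`. -/

set_option autoImplicit false

open Complex Set Filter Topology Metric

namespace Pool.Agent.H61.Ray

lemma one_add_sub_ne {h : ℂ} {l : ℝ} (hh : ‖h‖ ≤ 1) (hl : 0 < l) : (1 + l - h : ℂ) ≠ 0 := by
  have hre : h.re ≤ 1 := (Complex.re_le_norm h).trans hh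
  intro h0
  have := congrArg Complex.re h0
  simp at this
  linarith

lemma re_line {f h : ℂ} {r B l : ℝ} (hh : ‖h‖ = 1) (hf : f = h * (starRingEnd ℂ) f) (hl : 0 < l) :
    ((r * (2 * f + B * (1 + h))) / (2 * (1 + l - h)) : ℂ).re =
      l * r * (2 * f + B * (1 + h) : ℂ).re / (2 * ‖(1 + l - h : ℂ)‖ ^ 2) := by
  have e1 : h * (starRingEnd ℂ) h = 1 := by rw [Complex.mul_conj', hh]; norm_num
  have e2 : f * (starRingEnd ℂ) h = (starRingEnd ℂ) f := by
    calc f * (starRingEnd ℂ) h = (h * (starRingEnd ℂ) f) * (starRingEnd ℂ) h := by rw [← hf]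
      _ = (h * (starRingEnd ℂ) h) * (starRingEnd ℂ) f := by ring
      _ = _ := by rw [e1, one_mul]
  have hne : (1 + l - h : ℂ) ≠ 0 := one_add_sub_ne hh.le hl
  have hn : (‖(1 + l - h : ℂ)‖ : ℂ) ≠ 0 := by
    rw [Ne, Complex.ofReal_eq_zero, norm_eq_zero]; exact hne
  have e3 : (1 + l - h : ℂ) * (1 + l - (starRingEnd ℂ) h) = (‖(1 + l - h : ℂ)‖ : ℂ) ^ 2 := by
    rw [← Complex.mul_conj']
    simp
  have hne' : (1 + l - (starRingEnd ℂ) h : ℂ) ≠ 0 := by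
    intro h0
    rw [h0, mul_zero] at e3
    exact (pow_ne_zero 2 hn) e3.symm
  have e4 : ((r * (2 * f + B * (1 + h))) / (2 * (1 + l - h)) : ℂ) =
      (l * r * (2 * f + B * (1 + h)) + r * (2 * (f - (starRingEnd ℂ) f) +
        B * (h - (starRingEnd ℂ) h))) / ((2 * ‖(1 + l - h : ℂ)‖ ^ 2 : ℝ) : ℂ) := by
    push_cast
    rw [← e3]
    rw [div_eq_div_iff (mul_ne_zero two_ne_zero hne)
      (mul_ne_zero two_ne_zero (mul_ne_zero hne hne'))]
    linear_combination (-(2 * (1 + l - h) * r * (2 * e2 + B * e1)))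
  rw [e4, Complex.div_ofReal_re]
  congr 1
  simp

lemma norm_sub_sq {h : ℂ} {l : ℝ} (hh : ‖h‖ = 1) (hl : 0 ≤ l) :
    ‖1 - h‖ ^ 2 ≤ ‖(1 + l - h : ℂ)‖ ^ 2 := by
  have hre : h.re ≤ 1 := by rw [← hh]; exact Complex.re_le_norm h
  rw [← Complex.normSq_eq_norm_sq, ← Complex.normSq_eq_norm_sq, Complex.normSq_apply,
    Complex.normSq_apply]
  simp
  nlinarith

lemma exp_neg_le {x : ℝ} (h0 : 0 ≤ x) (h1 : x ≤ 1) : Real.exp (-x) ≤ 1 - x / 2 := by
  have h7 : Real.exp (-x) ≤ 1 / (1 + x) := by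
    rw [Real.exp_neg, ← one_div]
    have := Real.add_one_le_exp x
    apply one_div_le_one_div_of_le (by linarith)
    linarith
  have h8 : 1 / (1 + x) ≤ 1 - x / 2 := by
    rw [div_le_iff₀ (by linarith)]
    nlinarith
  linarith

/-- A function of modulus at most `exp (-x)` has non vanishing derivative where it equals `1`. -/
lemma h_lower {h : ℂ → ℂ} {y₀ x₁ : ℝ} (hd : DifferentiableAt ℂ h (y₀ * I)) (h1 : h (y₀ * I) = 1)
    (hx₁ : 0 < x₁) (hx : ∀ x : ℝ, 0 < x → x ≤ x₁ → ‖h (x + y₀ * I)‖ ≤ Real.exp (-x)) :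
    ∃ C : ℝ, 0 ≤ C ∧ ∀ᶠ u : ℝ in 𝓝 y₀, |u - y₀| ≤ C * ‖1 - h (u * I)‖ := by
  have hdh := hd.hasDerivAt
  set h' := deriv h (y₀ * I) with hh'
  have key : ∀ c : ℝ, 0 < c → ∀ᶠ z in 𝓝 (y₀ * I : ℂ),
      ‖h z - 1 - (z - y₀ * I) * h'‖ ≤ c * ‖z - y₀ * I‖ := by
    intro c hc
    have := hdh.isLittleO.def hc
    simpa [h1] using this
  have hne : h' ≠ 0 := by
    intro h0
    have e3 : ∀ᶠ x : ℝ in 𝓝[>] (0:ℝ), ‖h (x + y₀ * I) - 1‖ ≤ 1 / 4 * |x| := by
      have ht : Tendsto (fun x : ℝ => (x : ℂ) + y₀ * I) (𝓝[>] (0:ℝ)) (𝓝 (y₀ * I)) := by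
        have : Continuous fun x : ℝ => (x : ℂ) + y₀ * I := by fun_prop
        exact (this.tendsto' 0 (y₀ * I) (by simp)).mono_left nhdsWithin_le_nhds
      filter_upwards [ht.eventually (key (1 / 4) (by norm_num))] with x hx
      rw [h0] at hx
      simpa using hx
    have e4 : ∀ᶠ x : ℝ in 𝓝[>] (0:ℝ), 0 < x ∧ x ≤ min x₁ 1 := by
      have : Ioc (0:ℝ) (min x₁ 1) ∈ 𝓝[>] (0:ℝ) := Ioc_mem_nhdsGT (by positivity)
      filter_upwards [this] with x hx using hx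
    obtain ⟨x, hx2, hx3⟩ := (e3.and e4).exists
    have hxx := hx x hx3.1 (hx3.2.trans (min_le_left _ _))
    have hx1 : x ≤ 1 := hx3.2.trans (min_le_right _ _)
    rw [abs_of_pos hx3.1] at hx2
    have h5 : 1 - ‖h (x + y₀ * I)‖ ≤ ‖h (x + y₀ * I) - 1‖ := by
      have := norm_sub_norm_le (1:ℂ) (h (x + y₀ * I))
      rw [norm_one, norm_sub_rev] at this
      exact this
    have h6 : Real.exp (-x) ≤ 1 - x / 2 := exp_neg_le hx3.1.le hx1
    linarith [hx3.1]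
  have hpos : 0 < ‖h'‖ := norm_pos_iff.mpr hne
  refine ⟨2 / ‖h'‖, by positivity, ?_⟩
  have ht : Tendsto (fun x : ℝ => (x : ℂ) * I) (𝓝 y₀) (𝓝 (y₀ * I)) := by
    have : Continuous fun x : ℝ => (x : ℂ) * I := by fun_prop
    exact this.tendsto' y₀ (y₀ * I) rfl
  filter_upwards [ht.eventually (key (‖h'‖ / 2) (by positivity))] with u hu
  have e1 : ‖(u * I - y₀ * I : ℂ)‖ = |u - y₀| := by
    rw [← sub_mul, norm_mul, norm_I, mul_one, ← ofReal_sub, norm_real, Real.norm_eq_abs]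
  have e2 : ‖(u * I - y₀ * I : ℂ) * h'‖ ≤ ‖h (u * I) - 1 - (u * I - y₀ * I) * h'‖ +
      ‖1 - h (u * I)‖ := by
    have := norm_add_le (h (u * I) - 1 - (u * I - y₀ * I) * h') (1 - h (u * I))
    have e : h (u * I) - 1 - (u * I - y₀ * I) * h' + (1 - h (u * I)) =
        -((u * I - y₀ * I) * h') := by ring
    rw [e, norm_neg] at this
    exact this
  rw [norm_mul, e1] at e2
  rw [e1] at hu
  rw [div_mul_eq_mul_div, le_div_iff₀ hpos]
  nlinarith

/-- The hypotheses of the positivity argument on the rectangle `[0, x₁] × [-η, η]`. -/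
structure Hyp (f h F : ℂ → ℂ) (r : ℝ → ℝ) (x₁ η B : ℝ) (Z : Set ℝ) : Prop where
  x₁_pos : 0 < x₁
  x₁_le : x₁ ≤ 1
  η_pos : 0 < η
  hf : ∀ z : ℂ, 0 ≤ z.re → z.re ≤ x₁ → |z.im| ≤ η → DifferentiableAt ℂ f z
  hh : ∀ z : ℂ, 0 ≤ z.re → z.re ≤ x₁ → |z.im| ≤ η → DifferentiableAt ℂ h z
  hF : Differentiable ℂ F
  h_line : ∀ y : ℝ, |y| ≤ η → ‖h (y * I)‖ = 1
  h_right : ∀ z : ℂ, 0 ≤ z.re → z.re ≤ x₁ → |z.im| ≤ η → ‖h z‖ ≤ Real.exp (-z.re)
  func : ∀ y : ℝ, |y| ≤ η → f (y * I) = h (y * I) * (starRingEnd ℂ) (f (y * I))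
  F_line : ∀ y : ℝ, |y| ≤ η → 0 ≤ r y ∧ F (y * I) = r y
  F_zero : ∀ y ∈ Z, |y| ≤ η → ∃ C : ℝ, ∀ᶠ u : ℝ in 𝓝 y, ‖F (u * I)‖ ≤ C * |u - y| ^ 2
  B_pos : 0 < B
  ray : ∀ y : ℝ, |y| ≤ η → y ∉ Z → h (y * I) = 1 → -B < (f (y * I)).re

/-- The numerator. -/
noncomputable def num (f h : ℂ → ℂ) (B : ℝ) (z : ℂ) : ℂ := 2 * f z + B * (1 + h z)

/-- The quotient. -/
noncomputable def quo (f h F : ℂ → ℂ) (B l : ℝ) (z : ℂ) : ℂ :=
  F z * num f h B z / (2 * (1 + l - h z))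

section core

variable {f h F : ℂ → ℂ} {r : ℝ → ℝ} {x₁ η B : ℝ} {Z : Set ℝ}

lemma Hyp.norm_h_le (H : Hyp f h F r x₁ η B Z) {z : ℂ} (h0 : 0 ≤ z.re) (h1 : z.re ≤ x₁)
    (h2 : |z.im| ≤ η) : ‖h z‖ ≤ 1 :=
  (H.h_right z h0 h1 h2).trans (by rw [Real.exp_le_one_iff]; linarith)

lemma Hyp.line_local (H : Hyp f h F r x₁ η B Z) {y₀ : ℝ} (hy₀ : |y₀| ≤ η) :
    ∃ C : ℝ, 0 ≤ C ∧ ∀ᶠ y : ℝ in 𝓝 y₀, |y| ≤ η → 0 ≤ (num f h B (y * I)).re ∨
      r y * ‖num f h B (y * I)‖ ≤ C * ‖1 - h (y * I)‖ ^ 2 := by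
  have ht : Tendsto (fun x : ℝ => (x : ℂ) * I) (𝓝 y₀) (𝓝 (y₀ * I)) := by
    have : Continuous fun x : ℝ => (x : ℂ) * I := by fun_prop
    exact this.tendsto' y₀ (y₀ * I) rfl
  have him : ((y₀ : ℂ) * I).im = y₀ := by simp
  have hre : ((y₀ : ℂ) * I).re = 0 := by simp
  have hfd := H.hf (y₀ * I) hre.ge (by rw [hre]; exact H.x₁_pos.le) (by rw [him]; exact hy₀)
  have hhd := H.hh (y₀ * I) hre.ge (by rw [hre]; exact H.x₁_pos.le) (by rw [him]; exact hy₀)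
  have cf : ContinuousAt (fun y : ℝ => f (y * I)) y₀ := hfd.continuousAt.tendsto.comp ht
  have ch : ContinuousAt (fun y : ℝ => h (y * I)) y₀ := hhd.continuousAt.tendsto.comp ht
  have cF : ContinuousAt (fun y : ℝ => F (y * I)) y₀ :=
    H.hF.continuous.continuousAt.tendsto.comp ht
  have cn : ContinuousAt (fun y : ℝ => num f h B (y * I)) y₀ :=
    (continuousAt_const.mul cf).add (continuousAt_const.mul (continuousAt_const.add ch))
  have hrF : ∀ y : ℝ, |y| ≤ η → r y = ‖F (y * I)‖ := by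
    intro y hy
    obtain ⟨h1, h2⟩ := H.F_line y hy
    rw [h2, norm_real, Real.norm_of_nonneg h1]
  have en : ∀ᶠ y : ℝ in 𝓝 y₀, ‖num f h B (y * I)‖ ≤ ‖num f h B (y₀ * I)‖ + 1 :=
    (cn.norm.eventually_le_const (by linarith) : _)
  by_cases h1 : h (y₀ * I) = 1
  · by_cases hZ : y₀ ∈ Z
    · obtain ⟨C₁, hC₁⟩ := H.F_zero y₀ hZ hy₀
      obtain ⟨C₂, hC₂0, hC₂⟩ := h_lower hhd h1 H.x₁_pos (fun x hx0 hx1 => by
        have := H.h_right (x + y₀ * I) (by simp; exact hx0.le) (by simp; exact hx1)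
          (by simp; exact hy₀)
        simpa using this)
      refine ⟨|C₁| * C₂ ^ 2 * (‖num f h B (y₀ * I)‖ + 1), by positivity, ?_⟩
      filter_upwards [hC₁, hC₂, en] with y e1 e2 e3 hy
      right
      rw [hrF y hy]
      have e4 : ‖F (y * I)‖ ≤ |C₁| * (C₂ * ‖1 - h (y * I)‖) ^ 2 := by
        refine e1.trans ?_
        have := le_abs_self C₁
        gcongr
      calc ‖F (y * I)‖ * ‖num f h B (y * I)‖ ≤ (|C₁| * (C₂ * ‖1 - h (y * I)‖) ^ 2) *
            (‖num f h B (y₀ * I)‖ + 1) := by gcongr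
        _ = _ := by ring
    · refine ⟨0, le_rfl, ?_⟩
      have h2 := H.ray y₀ hy₀ hZ h1
      have h3 : 0 < (num f h B (y₀ * I)).re := by
        unfold num
        rw [h1]
        simp
        linarith
      have cre : ContinuousAt (fun y : ℝ => (num f h B (y * I)).re) y₀ :=
        Complex.continuous_re.continuousAt.comp cn
      filter_upwards [cre.eventually_const_lt h3] with y hy _
      exact Or.inl hy.le
  · have hc : 0 < ‖1 - h (y₀ * I)‖ := norm_pos_iff.mpr (sub_ne_zero.mpr (Ne.symm h1))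
    set c := ‖1 - h (y₀ * I)‖ with hcdef
    have e1 : ∀ᶠ y : ℝ in 𝓝 y₀, c / 2 < ‖1 - h (y * I)‖ := by
      have : ContinuousAt (fun y : ℝ => ‖1 - h (y * I)‖) y₀ := (continuousAt_const.sub ch).norm
      exact this.eventually_const_lt (by linarith)
    have e2 : ∀ᶠ y : ℝ in 𝓝 y₀, ‖F (y * I)‖ ≤ ‖F (y₀ * I)‖ + 1 :=
      (cF.norm.eventually_le_const (by linarith) : _)
    refine ⟨(‖F (y₀ * I)‖ + 1) * (‖num f h B (y₀ * I)‖ + 1) / (c / 2) ^ 2, by positivity, ?_⟩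
    filter_upwards [e1, e2, en] with y h1 h2 h3 hy
    right
    rw [hrF y hy]
    have h4 : (c / 2) ^ 2 ≤ ‖1 - h (y * I)‖ ^ 2 := by gcongr
    rw [div_mul_eq_mul_div, le_div_iff₀ (by positivity)]
    gcongr

lemma Hyp.quo_line (H : Hyp f h F r x₁ η B Z) {l y : ℝ} (hl : 0 < l) (hy : |y| ≤ η) :
    (quo f h F B l (y * I)).re = l * r y * (num f h B (y * I)).re /
      (2 * ‖(1 + l - h (y * I) : ℂ)‖ ^ 2) := by
  have h1 := re_line (B := B) (r := r y) (H.h_line y hy) (H.func y hy) hl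
  rw [← (H.F_line y hy).2] at h1
  exact h1

lemma Hyp.line_lower (H : Hyp f h F r x₁ η B Z) {κ : ℝ} (hκ : 0 < κ) :
    ∀ᶠ l : ℝ in 𝓝[>] 0, ∀ y : ℝ, |y| ≤ η → -κ ≤ (quo f h F B l (y * I)).re := by
  have h1 : ∀ᶠ l : ℝ in 𝓝 0, ∀ y ∈ Icc (-η) η, |y| ≤ η → 0 < l →
      -κ ≤ (quo f h F B l (y * I)).re := by
    refine isCompact_Icc.eventually_forall_of_forall_eventually fun y₀ hy₀ => ?_
    have hy₀' : |y₀| ≤ η := abs_le.mpr hy₀
    obtain ⟨C, hC, hloc⟩ := H.line_local hy₀'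
    have hl : ∀ᶠ l : ℝ in 𝓝 0, l < 2 * κ / (C + 1) :=
      eventually_lt_nhds (by positivity)
    filter_upwards [hl.prodMk_nhds hloc] with p hp hy hl0
    obtain ⟨l, y⟩ := p
    simp only at hp hy hl0 ⊢
    rw [H.quo_line hl0 hy]
    have hr := (H.F_line y hy).1
    have hne : (1 + l - h (y * I) : ℂ) ≠ 0 := one_add_sub_ne (H.h_line y hy).le hl0
    have hpos : 0 < ‖(1 + l - h (y * I) : ℂ)‖ := norm_pos_iff.mpr hne
    rcases hp.2 hy with h2 | h2
    · have : 0 ≤ l * r y * (num f h B (y * I)).re / (2 * ‖(1 + l - h (y * I) : ℂ)‖ ^ 2) := by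
        positivity
      linarith
    · have h3 := norm_sub_sq (H.h_line y hy) hl0.le
      have h4 : -‖num f h B (y * I)‖ ≤ (num f h B (y * I)).re :=
        (abs_le.mp (Complex.abs_re_le_norm _)).1
      rw [le_div_iff₀ (by positivity)]
      have h5 : l * (C + 1) ≤ 2 * κ := by
        have := hp.1
        rw [lt_div_iff₀ (by positivity)] at this
        exact this.le
      set N2 := ‖(1 + l - h (y * I) : ℂ)‖ ^ 2 with hN2
      have hN2p : 0 < N2 := by positivity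
      have h6 : r y * ‖num f h B (y * I)‖ ≤ C * N2 := h2.trans (by gcongr)
      have h7 : -(l * (C * N2)) ≤ l * r y * (num f h B (y * I)).re := by
        calc -(l * (C * N2)) ≤ -(l * (r y * ‖num f h B (y * I)‖)) := by
              apply neg_le_neg; gcongr
          _ = l * r y * (-‖num f h B (y * I)‖) := by ring
          _ ≤ _ := by gcongr
      have h8 : l * (C * N2) ≤ 2 * κ * N2 := by
        calc l * (C * N2) = (l * C) * N2 := by ring
          _ ≤ (l * (C + 1)) * N2 := by gcongr; linarith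
          _ ≤ _ := by gcongr
      linarith
  have h2 := h1.filter_mono (nhdsWithin_le_nhds (s := Ioi (0:ℝ)))
  filter_upwards [h2, self_mem_nhdsWithin] with l hl hl0 y hy
  exact hl y (abs_le.mp hy) hy hl0

lemma Hyp.quo_diff (H : Hyp f h F r x₁ η B Z) {l : ℝ} (hl : 0 < l) {z : ℂ} (h0 : 0 ≤ z.re)
    (h1 : z.re ≤ x₁) (h2 : |z.im| ≤ η) : DifferentiableAt ℂ (quo f h F B l) z := by
  unfold quo num
  have hne := one_add_sub_ne (H.norm_h_le h0 h1 h2) hl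
  refine DifferentiableAt.div ?_ ?_ (mul_ne_zero two_ne_zero hne)
  · exact (H.hF z).mul (((H.hf z h0 h1 h2).const_mul _).add
      (((H.hh z h0 h1 h2).const_add _).const_mul _))
  · exact ((H.hh z h0 h1 h2).const_sub _).const_mul _

/-- The bound of the quotient in the rectangle. -/
lemma Hyp.quo_norm (H : Hyp f h F r x₁ η B Z) {l : ℝ} (hl : 0 ≤ l) {z : ℂ} (h0 : 0 < z.re)
    (h1 : z.re ≤ x₁) (h2 : |z.im| ≤ η) {U : ℝ} (hU : ‖f z‖ ≤ U) :
    ‖quo f h F B l z‖ ≤ ‖F z‖ / z.re * (2 * (U + B)) := by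
  have hb := H.B_pos
  have hn1 := H.norm_h_le h0.le h1 h2
  have hn2 := H.h_right z h0.le h1 h2
  have h3 := exp_neg_le h0.le (h1.trans H.x₁_le)
  have hU0 : 0 ≤ U := (norm_nonneg _).trans hU
  have h4 : z.re / 2 ≤ ‖(1 + l - h z : ℂ)‖ := by
    have h5 : ‖(1 + l : ℂ)‖ = 1 + l := by
      rw [← ofReal_one, ← ofReal_add, norm_real, Real.norm_of_nonneg (by linarith)]
    have h6 := norm_sub_norm_le (1 + l : ℂ) (h z)
    rw [h5] at h6
    linarith
  have h5 : ‖num f h B z‖ ≤ 2 * (U + B) := by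
    unfold num
    refine (norm_add_le _ _).trans ?_
    rw [norm_mul, norm_mul, norm_real, Real.norm_of_nonneg hb.le]
    have h6 : ‖(1 + h z : ℂ)‖ ≤ 2 := by
      refine (norm_add_le _ _).trans ?_
      rw [norm_one]; linarith
    have h7 : ‖(2:ℂ)‖ = 2 := by simp
    rw [h7]
    nlinarith
  unfold quo
  rw [norm_div, norm_mul, norm_mul]
  have h7 : ‖(2:ℂ)‖ = 2 := by simp
  rw [h7, div_mul_eq_mul_div, div_le_div_iff₀ (by linarith) h0]
  calc ‖F z‖ * ‖num f h B z‖ * z.re ≤ ‖F z‖ * (2 * (U + B)) * (2 * ‖(1 + l - h z : ℂ)‖) := by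
        gcongr
        linarith
    _ = _ := by ring

/-- The main estimate. -/
theorem Hyp.main (H : Hyp f h F r x₁ η B Z) (hη : x₁ / 2 ≤ η) {m₁ : ℝ} (hm : 0 < m₁)
    (hedge : ∀ l : ℝ, 0 < l → ∀ z : ℂ, 0 ≤ z.re → z.re ≤ x₁ → |z.im| ≤ η →
      (z.re = x₁ ∨ |z.im| = η) → ‖quo f h F B l z‖ ≤ m₁)
    {x₀ : ℝ} (hx₀ : 0 < x₀) (hx₀' : x₀ < x₁ / 2) :
    ‖quo f h F B 0 x₀‖ ≤ x₁ / x₀ * (m₁ + ‖quo f h F B 0 (x₁ / 2 : ℝ)‖) := by
  have hx₁ := H.x₁_pos
  -- lower bound in the rectangle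
  have low : ∀ κ : ℝ, 0 < κ → ∀ᶠ l : ℝ in 𝓝[>] 0, ∀ z : ℂ, 0 ≤ z.re → z.re ≤ x₁ →
      |z.im| ≤ η → -(m₁ + κ) ≤ (quo f h F B l z).re := by
    intro κ hκ
    filter_upwards [H.line_lower hκ, self_mem_nhdsWithin] with l hl hl0 z h0 h1 h2
    have hl0' : 0 < l := hl0
    set U : Set ℂ := Ioo 0 x₁ ×ℂ Ioo (-η) η with hU
    have hcl : closure U = Icc 0 x₁ ×ℂ Icc (-η) η := by
      rw [hU, closure_reProdIm, closure_Ioo hx₁.ne, closure_Ioo (by linarith [H.η_pos] : -η ≠ η)]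
    have hzU : z ∈ closure U := by
      rw [hcl, mem_reProdIm]
      exact ⟨⟨h0, h1⟩, abs_le.mp h2⟩
    have hd : DiffContOnCl ℂ (fun z => cexp (-quo f h F B l z)) U := by
      refine DifferentiableOn.diffContOnCl fun w hw => ?_
      rw [hcl, mem_reProdIm] at hw
      exact ((H.quo_diff hl0' hw.1.1 hw.1.2 (abs_le.mpr hw.2)).neg.cexp).differentiableWithinAt
    have hbd : Bornology.IsBounded U :=
      (isBounded_Ioo (0:ℝ) x₁).reProdIm (isBounded_Ioo (-η) η)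
    have key := Complex.norm_le_of_forall_mem_frontier_norm_le hbd hd
      (C := Real.exp (m₁ + κ)) (fun w hw => ?_) hzU
    · rw [norm_exp, Real.exp_le_exp, neg_re] at key
      linarith
    · rw [norm_exp, Real.exp_le_exp, neg_re]
      have hwc : w ∈ closure U := frontier_subset_closure hw
      rw [hcl, mem_reProdIm] at hwc
      have hw2 : w ∉ U := by
        have hopen : IsOpen U := isOpen_Ioo.reProdIm isOpen_Ioo
        rw [hopen.frontier_eq] at hw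
        exact hw.2
      by_cases hw0 : w.re = 0
      · have hw' : w = (w.im : ℂ) * I := by
          apply Complex.ext <;> simp [hw0]
        rw [hw']
        have := hl w.im (abs_le.mpr hwc.2)
        linarith
      · have hedg : w.re = x₁ ∨ |w.im| = η := by
          by_contra hcon
          push Not at hcon
          apply hw2
          rw [hU, mem_reProdIm]
          have h3 := lt_of_le_of_ne (abs_le.mpr hwc.2) hcon.2
          exact ⟨⟨lt_of_le_of_ne hwc.1.1 (Ne.symm hw0), lt_of_le_of_ne hwc.1.2 hcon.1⟩,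
            abs_lt.mp h3⟩
        have h3 := hedge l hl0' w hwc.1.1 hwc.1.2 (abs_le.mpr hwc.2) hedg
        have h4 := (abs_le.mp ((Complex.abs_re_le_norm (quo f h F B l w)).trans h3)).1
        linarith
  -- the limit
  have low0 : ∀ z : ℂ, 0 < z.re → z.re ≤ x₁ → |z.im| ≤ η → -m₁ ≤ (quo f h F B 0 z).re := by
    intro z h0 h1 h2
    apply le_of_forall_pos_le_add
    intro κ hκ
    have h3 := low κ hκ
    have hne : (1 + (0:ℝ) - h z : ℂ) ≠ 0 := by
      have h4 := H.h_right z h0.le h1 h2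
      have h5 : ‖h z‖ < 1 := h4.trans_lt (by rw [Real.exp_lt_one_iff]; linarith)
      intro h6
      have h7 : h z = 1 := by
        simp at h6
        linear_combination -h6
      rw [h7, norm_one] at h5
      exact lt_irrefl _ h5
    have ht : Tendsto (fun l : ℝ => (quo f h F B l z).re) (𝓝[>] 0)
        (𝓝 (quo f h F B 0 z).re) := by
      have hc : ContinuousAt (fun l : ℝ => (quo f h F B l z).re) 0 := by
        unfold quo
        refine Complex.continuous_re.continuousAt.comp ?_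
        refine ContinuousAt.div continuousAt_const ?_ (mul_ne_zero two_ne_zero hne)
        fun_prop
      exact hc.tendsto.mono_left nhdsWithin_le_nhds
    have h4 : -(m₁ + κ) ≤ (quo f h F B 0 z).re :=
      ge_of_tendsto ht (h3.mono fun l hl => hl z h0.le h1 h2)
    linarith
  -- Borel-Caratheodory
  set c : ℂ := ((x₁ / 2 : ℝ) : ℂ) with hc
  set g : ℂ → ℂ := fun z => -quo f h F B 0 (c + z) with hg
  have hball : ∀ z ∈ ball (0:ℂ) (x₁ / 2), 0 < (c + z).re ∧ (c + z).re ≤ x₁ ∧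
      |(c + z).im| ≤ η := by
    intro z hz
    rw [mem_ball_zero_iff] at hz
    have h1 := abs_lt.mp ((Complex.abs_re_le_norm z).trans_lt hz)
    have h2 := (Complex.abs_im_le_norm z).trans_lt hz
    refine ⟨?_, ?_, ?_⟩
    · simp [hc]; linarith [h1.1]
    · simp [hc]; linarith [h1.2]
    · simp [hc]; linarith
  have hgd : DifferentiableOn ℂ g (ball 0 (x₁ / 2)) := by
    intro z hz
    obtain ⟨h0, h1, h2⟩ := hball z hz
    have hne : (1 + (0:ℝ) - h (c + z) : ℂ) ≠ 0 := by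
      have h4 := H.h_right (c + z) h0.le h1 h2
      have h5 : ‖h (c + z)‖ < 1 := h4.trans_lt (by rw [Real.exp_lt_one_iff]; linarith)
      intro h6
      have h7 : h (c + z) = 1 := by
        simp at h6
        linear_combination -h6
      rw [h7, norm_one] at h5
      exact lt_irrefl _ h5
    have hq : DifferentiableAt ℂ (quo f h F B 0) (c + z) := by
      unfold quo num
      refine DifferentiableAt.div ?_ ?_ (mul_ne_zero two_ne_zero hne)
      · exact (H.hF _).mul (((H.hf _ h0.le h1 h2).const_mul _).add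
          (((H.hh _ h0.le h1 h2).const_add _).const_mul _))
      · exact ((H.hh _ h0.le h1 h2).const_sub _).const_mul _
    exact ((hq.comp z ((differentiableAt_const _).add differentiableAt_id)).neg).differentiableWithinAt
  have hmaps : MapsTo g (ball 0 (x₁ / 2)) {z | z.re ≤ m₁} := by
    intro z hz
    obtain ⟨h0, h1, h2⟩ := hball z hz
    have := low0 _ h0 h1 h2
    show (-quo f h F B 0 (c + z)).re ≤ m₁
    rw [neg_re]
    linarith
  have hz₀ : ((x₀ - x₁ / 2 : ℝ) : ℂ) ∈ ball (0:ℂ) (x₁ / 2) := by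
    rw [mem_ball_zero_iff, norm_real, Real.norm_eq_abs, abs_lt]
    constructor <;> linarith
  have hBC := Complex.borelCaratheodory hm hgd hmaps (by linarith) hz₀
  have e1 : c + ((x₀ - x₁ / 2 : ℝ) : ℂ) = x₀ := by rw [hc]; push_cast; ring
  have e2 : ‖((x₀ - x₁ / 2 : ℝ) : ℂ)‖ = x₁ / 2 - x₀ := by
    rw [norm_real, Real.norm_eq_abs, abs_of_neg (by linarith)]; ring
  simp only [hg, e1, e2, norm_neg, add_zero] at hBC
  refine hBC.trans ?_
  have e3 : x₁ / 2 - (x₁ / 2 - x₀) = x₀ := by ring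
  rw [e3]
  have h5 := norm_nonneg (quo f h F B 0 c)
  have h6 : 2 * m₁ * (x₁ / 2 - x₀) / x₀ ≤ x₁ / x₀ * m₁ := by
    have e4 : x₁ / x₀ * m₁ = x₁ * m₁ / x₀ := by ring
    rw [e4]
    apply div_le_div_of_nonneg_right _ hx₀.le
    nlinarith
  have h7 : ‖quo f h F B 0 c‖ * (x₁ / 2 + (x₁ / 2 - x₀)) / x₀ ≤
      x₁ / x₀ * ‖quo f h F B 0 c‖ := by
    have e4 : x₁ / x₀ * ‖quo f h F B 0 c‖ = x₁ * ‖quo f h F B 0 c‖ / x₀ := by ring
    rw [e4]
    apply div_le_div_of_nonneg_right _ hx₀.le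
    nlinarith
  linarith

theorem Hyp.final (H : Hyp f h F r x₁ η B Z) (hη : x₁ / 2 ≤ η) {F₀ F₁ F₂ U V : ℝ}
    (hF₀ : 0 < F₀) (hF₁ : 0 < F₁) (hF₂ : 0 ≤ F₂)
    (hF1 : ∀ z : ℂ, 0 ≤ z.re → z.re ≤ x₁ → |z.im| ≤ η → ‖F z‖ ≤ F₁)
    (hF2 : ∀ z : ℂ, 0 ≤ z.re → z.re ≤ x₁ → |z.im| = η → ‖F z‖ ≤ F₂ * z.re)
    (hU : ∀ z : ℂ, x₁ / 2 ≤ z.re → z.re ≤ x₁ → |z.im| ≤ η → ‖f z‖ ≤ U)
    (hV : ∀ z : ℂ, 0 ≤ z.re → z.re ≤ x₁ → |z.im| ≤ η → ‖f z‖ ≤ V)
    {x₀ : ℝ} (hx₀ : 0 < x₀) (hx₀' : x₀ < x₁ / 2) (hF0 : F₀ ≤ ‖F x₀‖) :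
    ‖f x₀‖ ≤ (12 * F₁ * (U + B) + 4 * F₂ * (V + B)) / (F₀ * x₀) + B := by
  have hx₁ := H.x₁_pos
  have hx₁' := H.x₁_le
  have hb := H.B_pos
  have him : |((x₁ / 2 : ℝ) : ℂ).im| ≤ η := by rw [ofReal_im, abs_zero]; exact H.η_pos.le
  have hU0 : 0 ≤ U := (norm_nonneg _).trans
    (hU ((x₁ / 2 : ℝ) : ℂ) (by rw [ofReal_re]) (by rw [ofReal_re]; linarith) him)
  have hV0 : 0 ≤ V := (norm_nonneg _).trans
    (hV ((x₁ / 2 : ℝ) : ℂ) (by rw [ofReal_re]; linarith) (by rw [ofReal_re]; linarith) him)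
  set m₁ := F₁ / x₁ * (2 * (U + B)) + F₂ * (2 * (V + B)) with hm₁
  have hA1 : 0 < F₁ / x₁ * (2 * (U + B)) := by positivity
  have hA2 : 0 ≤ F₂ * (2 * (V + B)) := by positivity
  have key := H.main hη (m₁ := m₁) (by linarith) (fun l hl z h0 h1 h2 h3 => by
    rcases eq_or_lt_of_le h0 with h4 | h4
    · rcases h3 with h3 | h3
      · linarith
      · have h5 := hF2 z h0 h1 h3
        rw [← h4, mul_zero] at h5
        have h6 : F z = 0 := norm_le_zero_iff.mp h5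
        unfold quo
        rw [h6, zero_mul, zero_div, norm_zero]
        linarith
    · rcases h3 with h3 | h3
      · have h5 := H.quo_norm hl.le h4 h1 h2 (hU z (by linarith) h1 h2)
        have h6 := hF1 z h0 h1 h2
        rw [h3] at h5
        have h7 : ‖F z‖ / x₁ * (2 * (U + B)) ≤ F₁ / x₁ * (2 * (U + B)) := by gcongr
        linarith
      · have h5 := H.quo_norm hl.le h4 h1 h2 (hV z h0 h1 h2)
        have h6 := hF2 z h0 h1 h3
        have h7 : ‖F z‖ / z.re ≤ F₂ := by rwa [div_le_iff₀ h4]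
        have h8 : ‖F z‖ / z.re * (2 * (V + B)) ≤ F₂ * (2 * (V + B)) := by gcongr
        linarith) hx₀ hx₀'
  have hre : ((x₁ / 2 : ℝ) : ℂ).re = x₁ / 2 := ofReal_re _
  have h1 := H.quo_norm le_rfl (z := ((x₁ / 2 : ℝ) : ℂ)) (by rw [hre]; linarith)
    (by rw [hre]; linarith) him (hU _ (by rw [hre]) (by rw [hre]; linarith) him)
  rw [hre] at h1
  have h2 := hF1 ((x₁ / 2 : ℝ) : ℂ) (by rw [hre]; linarith) (by rw [hre]; linarith) him
  have h3 : ‖quo f h F B 0 ((x₁ / 2 : ℝ) : ℂ)‖ ≤ F₁ / x₁ * (4 * (U + B)) := by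
    refine h1.trans ?_
    calc ‖F ((x₁ / 2 : ℝ) : ℂ)‖ / (x₁ / 2) * (2 * (U + B)) ≤ F₁ / (x₁ / 2) * (2 * (U + B)) := by
          gcongr
      _ = _ := by field_simp; ring
  have h4 : ‖quo f h F B 0 x₀‖ ≤ (6 * F₁ * (U + B) + 2 * F₂ * (V + B)) / x₀ := by
    calc ‖quo f h F B 0 x₀‖ ≤ x₁ / x₀ * (m₁ + F₁ / x₁ * (4 * (U + B))) := by
          refine key.trans ?_
          gcongr
      _ = (6 * F₁ * (U + B) + x₁ * (2 * F₂ * (V + B))) / x₀ := by
          rw [hm₁]; field_simp; ring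
      _ ≤ _ := by
          have : x₁ * (2 * F₂ * (V + B)) ≤ 1 * (2 * F₂ * (V + B)) := by gcongr
          apply div_le_div_of_nonneg_right _ hx₀.le
          linarith
  have hre0 : ((x₀ : ℝ) : ℂ).re = x₀ := ofReal_re _
  have him0 : |((x₀ : ℝ) : ℂ).im| ≤ η := by rw [ofReal_im, abs_zero]; exact H.η_pos.le
  have hn := H.norm_h_le (z := (x₀ : ℂ)) (by rw [hre0]; linarith) (by rw [hre0]; linarith) him0
  have hnlt : ‖h x₀‖ < 1 := by
    have := H.h_right (x₀ : ℂ) (by rw [hre0]; linarith) (by rw [hre0]; linarith) him0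
    rw [hre0] at this
    exact this.trans_lt (by rw [Real.exp_lt_one_iff]; linarith)
  have hne : (1 - h x₀ : ℂ) ≠ 0 := by
    intro h5
    have h6 : h x₀ = 1 := by linear_combination -h5
    rw [h6, norm_one] at hnlt
    exact lt_irrefl _ hnlt
  have hFne : F x₀ ≠ 0 := norm_pos_iff.mp (hF₀.trans_le hF0)
  have h5 : num f h B x₀ = quo f h F B 0 x₀ * (2 * (1 - h x₀)) / F x₀ := by
    unfold quo
    rw [ofReal_zero, add_zero]
    field_simp
  have h6 : ‖num f h B x₀‖ ≤ ‖quo f h F B 0 x₀‖ * 4 / F₀ := by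
    rw [h5, norm_div, norm_mul]
    have h7 : ‖(2 * (1 - h x₀) : ℂ)‖ ≤ 4 := by
      rw [norm_mul]
      have h8 : ‖(2:ℂ)‖ = 2 := by simp
      have h9 : ‖(1 - h x₀ : ℂ)‖ ≤ 2 := by
        refine (norm_sub_le _ _).trans ?_
        rw [norm_one]; linarith
      rw [h8]; linarith
    gcongr
  have h7 : 2 * ‖f x₀‖ ≤ ‖num f h B x₀‖ + 2 * B := by
    have h8 : 2 * f x₀ = num f h B x₀ - B * (1 + h x₀) := by unfold num; ring
    have h9 : ‖2 * f x₀‖ = 2 * ‖f x₀‖ := by rw [norm_mul]; simp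
    rw [← h9, h8]
    refine (norm_sub_le _ _).trans ?_
    rw [norm_mul, norm_real, Real.norm_of_nonneg hb.le]
    have h6 : ‖(1 + h x₀ : ℂ)‖ ≤ 2 := by
      refine (norm_add_le _ _).trans ?_
      rw [norm_one]; linarith
    nlinarith
  have h8 : ‖quo f h F B 0 x₀‖ * 4 / F₀ ≤
      (6 * F₁ * (U + B) + 2 * F₂ * (V + B)) / x₀ * 4 / F₀ := by gcongr
  have h9 : (6 * F₁ * (U + B) + 2 * F₂ * (V + B)) / x₀ * 4 / F₀ =
      2 * ((12 * F₁ * (U + B) + 4 * F₂ * (V + B)) / (F₀ * x₀)) := by field_simp; ring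
  linarith

end core

end Pool.Agent.H61.Ray
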